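import Pool.Agent.KQU.Defs
import Pool.Agent.KUB.Coef

set_option autoImplicit false

/-!
# KQU CO : the coefficient and the annulus

From `KUB.coef_le`: for `0 < ρ < 1`, `n ‖a_n‖ ρ^(n-1) ≤ (1/2π) ∫ ‖f' (ρ e^{iθ})‖ dθ`; multiply
by `ρ` and integrate over `(1 - 2/n, 1 - 1/n)` in polar coordinates, `ρ^n ≥ 1/16`.
-/

open MeasureTheory Metric Set

namespace KQU

theorem coef_Om {f : ℂ → ℂ} (hf : DifferentiableOn ℂ f (ball 0 1)) {n : ℕ} (hn : 8 ≤ n) :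
    ENNReal.ofReal ‖MPV.coef f n‖ ≤ 4 * ∫⁻ z in Om n, ENNReal.ofReal ‖deriv f z‖ := by
  have h : (Om n : Set ℂ) = KUB.Om n := rfl
  rw [h]
  refine (KUB.coef_le hf (by omega)).trans ?_
  gcongr
  norm_num

end KQU
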