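import Pool.Agent.KQU.Sv
import Pool.Agent.KQU.Co
import Pool.Agent.MPV.Conn
import Pool.Agent.MPV.Cfi
import Pool.Agent.MPV.Gro

set_option autoImplicit false

/-!
# KQU FIN

`upper`: `A_n^{(p)} ≤ C (p - 1/4)^(-1/2) n^(2p-1)` for `n ≥ 8`; `small`: `A_n^{(p)} ≤ 800` for
`1 ≤ n ≤ 7`; `upper_all`: the two together, for all `n ≥ 1`.
-/

open MeasureTheory Metric Set MPV Filter

namespace KQU

theorem upper : ∃ C : ℝ, 0 < C ∧ ∀ p : ℝ, 1 / 4 < p → p < 1 → ∀ n : ℕ, 8 ≤ n →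
    MPV.A p n ≤ ENNReal.ofReal (C / Real.sqrt (p - 1 / 4) * (n : ℝ) ^ (2 * p - 1)) := by
  obtain ⟨C, hC, H⟩ := omega_int
  refine ⟨4 * C, by positivity, fun p hp hp1 n hn => ?_⟩
  refine iSup₂_le fun f hf => ?_
  obtain ⟨L, hL, hfL, hL0⟩ := exists_cls (by linarith : (0:ℝ) < p) hp1 hf
  have h1 := coef_Om hf.1 hn
  have hsub : Om n ⊆ ball (0 : ℂ) 1 := by
    intro z hz
    rw [mem_ball_zero_iff]
    have h2 : (0 : ℝ) ≤ 1 / (n : ℝ) := by positivity
    linarith [hz.2]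
  have hm : MeasurableSet (Om n) :=
    ((isOpen_lt continuous_const continuous_norm).inter
      (isOpen_lt continuous_norm continuous_const)).measurableSet
  have h3 : ∫⁻ z in Om n, ENNReal.ofReal ‖deriv f z‖ =
      ∫⁻ z in Om n, ENNReal.ofReal (Real.exp (L z).re * ‖deriv L z‖) := by
    refine setLIntegral_congr_fun hm fun z hz => ?_
    have hzb := hsub hz
    have h4 : deriv f z = Complex.exp (L z) * deriv L z := by
      have h5 : f =ᶠ[nhds z] fun y => Complex.exp (L y) :=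
        Filter.eventually_of_mem (isOpen_ball.mem_nhds hzb) fun y hy => hfL y hy
      rw [h5.deriv_eq]
      exact ((hL.diff.differentiableAt (isOpen_ball.mem_nhds hzb)).hasDerivAt.cexp).deriv
    show ENNReal.ofReal ‖deriv f z‖ = ENNReal.ofReal (Real.exp (L z).re * ‖deriv L z‖)
    rw [h4, norm_mul, Complex.norm_exp]
  rw [h3] at h1
  refine h1.trans ((mul_le_mul_right (H p hp hp1.le L hL hL0 n hn) 4).trans (le_of_eq ?_))
  rw [show (4 : ENNReal) = ENNReal.ofReal 4 by norm_num, ← ENNReal.ofReal_mul (by norm_num)]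
  congr 1
  ring

theorem small {p : ℝ} (hp : 1 / 4 < p) (hp1 : p < 1) {n : ℕ} (hn : 1 ≤ n) (hn7 : n ≤ 7) :
    MPV.A p n ≤ ENNReal.ofReal 800 := by
  refine iSup₂_le fun f hf => ENNReal.ofReal_le_ofReal ?_
  obtain ⟨L, hL, hfL, hL0⟩ := exists_cls (by linarith : (0:ℝ) < p) hp1 hf
  have hL1 : Cls 1 L := cls_mono hp1.le hL
  have hn0 : (0 : ℝ) < n := by exact_mod_cast hn
  have hn7' : (n : ℝ) ≤ 7 := by exact_mod_cast hn7
  set ρ : ℝ := Real.exp (-1 / n) with hρ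
  have hρ0 : 0 < ρ := Real.exp_pos _
  have hρ1 : ρ ≤ 7 / 8 := by
    have h1 : (1 : ℝ) / 7 ≤ 1 / n := one_div_le_one_div_of_le hn0 hn7'
    have h2 : (1 : ℝ) / n + 1 ≤ Real.exp (1 / n) := Real.add_one_le_exp _
    have h3 : ρ * Real.exp (1 / n) = 1 := by
      rw [hρ, ← Real.exp_add]
      rw [show (-1 / (n : ℝ) + 1 / n) = 0 by ring, Real.exp_zero]
    nlinarith
  have hbd : ∀ t : ℝ, ‖f (circleMap 0 ρ t)‖ ≤ 256 := by
    intro t
    have hz : ‖circleMap 0 ρ t‖ = ρ := by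
      rw [norm_circleMap_zero, abs_of_pos hρ0]
    have hzb : circleMap 0 ρ t ∈ ball (0 : ℂ) 1 := by
      rw [mem_ball_zero_iff, hz]
      linarith
    have h1 := hL1.growth (by norm_num) hzb
    rw [hL0, sub_zero, hz] at h1
    have h2 : Real.log ((1 + ρ) / (1 - ρ)) ≤ Real.log 16 := by
      refine Real.log_le_log (div_pos (by linarith) (by linarith)) ?_
      rw [div_le_iff₀ (by linarith)]
      linarith
    have h3 := le_abs_self (L (circleMap 0 ρ t)).re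
    rw [hfL _ hzb, Complex.norm_exp]
    have h4 : (256 : ℝ) = Real.exp (2 * Real.log 16) := by
      rw [mul_comm, Real.exp_mul, Real.exp_log (by norm_num)]
      norm_num
    rw [h4]
    refine Real.exp_le_exp.2 ?_
    linarith
  have h5 := coef_norm_le hf.1 hn
  have h6 : ‖∫ t in (0 : ℝ)..2 * Real.pi, ‖f (circleMap 0 ρ t)‖‖ ≤
      256 * |2 * Real.pi - 0| := by
    refine intervalIntegral.norm_integral_le_of_norm_le_const fun t _ => ?_
    rw [norm_norm]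
    exact hbd t
  rw [sub_zero, abs_of_pos (by positivity : (0 : ℝ) < 2 * Real.pi)] at h6
  have h7 := (le_abs_self _).trans h6
  have h8 : Real.exp 1 / (2 * Real.pi) *
      ∫ t in (0 : ℝ)..2 * Real.pi, ‖f (circleMap 0 ρ t)‖ ≤
      Real.exp 1 / (2 * Real.pi) * (256 * (2 * Real.pi)) :=
    mul_le_mul_of_nonneg_left h7 (by positivity)
  have h9 : Real.exp 1 / (2 * Real.pi) * (256 * (2 * Real.pi)) = 256 * Real.exp 1 := by
    field_simp
  have h10 := Real.exp_one_lt_d9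
  rw [h9] at h8
  linarith

theorem upper_all : ∃ C : ℝ, 0 < C ∧ ∀ p : ℝ, 1 / 4 < p → p < 1 → ∀ n : ℕ, 1 ≤ n →
    MPV.A p n ≤ ENNReal.ofReal (C / Real.sqrt (p - 1 / 4) * (n : ℝ) ^ (2 * p - 1)) := by
  obtain ⟨C, hC, H⟩ := upper
  refine ⟨C + 2400, by positivity, fun p hp hp1 n hn => ?_⟩
  have hn0 : (0 : ℝ) < n := by exact_mod_cast hn
  have hn1 : (1 : ℝ) ≤ n := by exact_mod_cast hn
  have hs0 : 0 < Real.sqrt (p - 1 / 4) := Real.sqrt_pos.2 (by linarith)
  have hs1 : Real.sqrt (p - 1 / 4) ≤ 1 := Real.sqrt_le_one.2 (by linarith)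
  have hP : 0 < (n : ℝ) ^ (2 * p - 1) := Real.rpow_pos_of_pos hn0 _
  rcases le_or_gt 8 n with h8 | h8
  · refine (H p hp hp1 n h8).trans (ENNReal.ofReal_le_ofReal ?_)
    gcongr
    linarith
  · refine (small hp hp1 hn (by omega)).trans (ENNReal.ofReal_le_ofReal ?_)
    have h9 : (n : ℝ) ≤ 9 := by
      have : n ≤ 9 := by omega
      exact_mod_cast this
    have h1 : (1 : ℝ) / 3 ≤ (n : ℝ) ^ (2 * p - 1) := by
      calc (1 : ℝ) / 3 = (9 : ℝ) ^ (-(1 / 2) : ℝ) := by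
            rw [Real.rpow_neg (by norm_num), ← Real.sqrt_eq_rpow,
              show (9 : ℝ) = 3 ^ 2 by norm_num, Real.sqrt_sq (by norm_num)]
            norm_num
        _ ≤ (n : ℝ) ^ (-(1 / 2) : ℝ) :=
            Real.rpow_le_rpow_of_nonpos hn0 h9 (by norm_num)
        _ ≤ (n : ℝ) ^ (2 * p - 1) := Real.rpow_le_rpow_of_exponent_le hn1 (by linarith)
    have h2 : C + 2400 ≤ (C + 2400) / Real.sqrt (p - 1 / 4) := by
      rw [le_div_iff₀ hs0]
      nlinarith
    calc (800 : ℝ) ≤ (C + 2400) * (1 / 3) := by linarith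
      _ ≤ (C + 2400) / Real.sqrt (p - 1 / 4) * (n : ℝ) ^ (2 * p - 1) :=
        mul_le_mul h2 h1 (by norm_num) (by positivity)

end KQU
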