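import Pool.Agent.KQU.Defs
import Pool.Agent.MPV.Ene
import Pool.Agent.MQV.Cmp

set_option autoImplicit false

/-!
# KQU BAS : bookkeeping for the annulus energy

* `cls_mono`: `π p e^{2U} ≤ π q e^{2U}`.  `toMV`: `ar (ball 0 1) (exp ∘ L) 0 R`: the set
  `{‖exp (L z)‖ < R}` is `{Re L z < log R}`, `|f'|² = e^{2 Re L}|L'|²`.
* `en_le`: `{a ≤ U < b} ⊆ {a - 1 < U < b}`, `Cls.energy`.
* `en_add`: disjoint union (the sets are measurable: `L` continuous on the open disc).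
* `bE_step`: `bE t = bE s + (en L r s t).toReal`, `bE_le`: from `en_le`.
* `dv_lower`: `deriv (exp ∘ L) z = exp (L z) * deriv L z`, so
  `|dv f 1 b| = |L'| |f|² (1/(1+|f|²) - 1/(b²+|f|²)) = |L'| (|f|²/(1+|f|²)) ((b²-1)/(b²+|f|²))`
  `≥ |L'| (1/2) (3/8)` for `1 ≤ |f| ≤ b`, `b ≥ 2`.
-/

open MeasureTheory Metric Set MPV

namespace KQU

theorem cls_mono {p q : ℝ} (hpq : p ≤ q) {L : ℂ → ℂ} (h : Cls p L) : Cls q L := by
  refine ⟨h.diff, fun U => (h.area U).trans (ENNReal.ofReal_le_ofReal ?_)⟩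
  exact mul_le_mul_of_nonneg_right (mul_le_mul_of_nonneg_left hpq Real.pi_pos.le)
    (Real.exp_pos _).le

private theorem deriv_exp_comp {L : ℂ → ℂ} {z : ℂ} (hL : DifferentiableAt ℂ L z) :
    deriv (fun z => Complex.exp (L z)) z = Complex.exp (L z) * deriv L z :=
  (hL.hasDerivAt.cexp).deriv

theorem toMV {p : ℝ} {L : ℂ → ℂ} (h : Cls p L) :
    MQV.MV (ball 0 1) p (fun z => Complex.exp (L z)) := by
  refine ⟨h.diff.cexp, fun R hR => ?_⟩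
  have h1 := h.area (Real.log R)
  have h2 : Real.pi * p * Real.exp (2 * Real.log R) = Real.pi * p * R ^ 2 := by
    have h3 : (2 : ℝ) * Real.log R = Real.log R + Real.log R := by ring
    rw [h3, Real.exp_add, Real.exp_log hR, sq]
  rw [h2] at h1
  refine le_trans (le_of_eq ?_) h1
  unfold MQV.ar
  have hset : {z | z ∈ ball (0 : ℂ) 1 ∧ 0 ≤ ‖Complex.exp (L z)‖ ∧ ‖Complex.exp (L z)‖ < R} =
      {z | z ∈ ball (0 : ℂ) 1 ∧ (L z).re < Real.log R} := by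
    ext z
    simp only [mem_setOf_eq, Complex.norm_exp]
    rw [Real.lt_log_iff_exp_lt hR]
    exact ⟨fun h => ⟨h.1, h.2.2⟩, fun h => ⟨h.1, (Real.exp_pos _).le, h.2⟩⟩
  rw [hset]
  have hmeas : MeasurableSet {z | z ∈ ball (0 : ℂ) 1 ∧ (L z).re < Real.log R} := by
    have hc : ContinuousOn (fun z => (L z).re) (ball (0 : ℂ) 1) :=
      Complex.continuous_re.comp_continuousOn h.diff.continuousOn
    exact (hc.isOpen_inter_preimage isOpen_ball isOpen_Iio).measurableSet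
  refine setLIntegral_congr_fun hmeas (fun z hz => ?_)
  have hd : DifferentiableAt ℂ L z := h.diff.differentiableAt (isOpen_ball.mem_nhds hz.1)
  show ENNReal.ofReal (‖deriv (fun z => Complex.exp (L z)) z‖ ^ 2) = _
  rw [deriv_exp_comp hd, norm_mul, Complex.norm_exp, mul_pow, ← Real.exp_nat_mul]
  push_cast
  rfl

theorem en_le {p : ℝ} (hp : 0 < p) (hp1 : p ≤ 1) {L : ℂ → ℂ} (h : Cls p L) {r a b : ℝ}
    (hab : a ≤ b) : en L r a b ≤ ENNReal.ofReal (Real.pi * (2 * (b - a) + 3)) := by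
  have h1 := Cls.energy hp h (a := a - 1) (b := b) (by linarith)
  unfold en
  refine (lintegral_mono_set ?_).trans (h1.trans (ENNReal.ofReal_le_ofReal ?_))
  · rintro z ⟨h2, -, h3, h4⟩
    exact ⟨h2, by linarith, h4⟩
  · have h2 : 0 ≤ 2 * (b - a) + 3 := by linarith
    have h3 : Real.pi * p ≤ Real.pi := by
      nlinarith [Real.pi_pos]
    calc Real.pi * p * (2 * (b - (a - 1)) + 1) = Real.pi * p * (2 * (b - a) + 3) := by ring
      _ ≤ Real.pi * (2 * (b - a) + 3) := mul_le_mul_of_nonneg_right h3 h2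

private theorem en_meas {p : ℝ} {L : ℂ → ℂ} (h : Cls p L) (r a b : ℝ) :
    MeasurableSet {z | z ∈ ball (0 : ℂ) 1 ∧ r ≤ ‖z‖ ∧ a ≤ (L z).re ∧ (L z).re < b} := by
  have hc : ContinuousOn (fun z => (L z).re) (ball (0 : ℂ) 1) :=
    Complex.continuous_re.comp_continuousOn h.diff.continuousOn
  have h1 : ∀ c : ℝ, MeasurableSet (ball (0 : ℂ) 1 ∩ (fun z => (L z).re) ⁻¹' Iio c) := fun c =>
    (hc.isOpen_inter_preimage isOpen_ball isOpen_Iio).measurableSet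
  have h2 : MeasurableSet {z : ℂ | r ≤ ‖z‖} := measurableSet_le measurable_const measurable_norm
  have h3 : {z | z ∈ ball (0 : ℂ) 1 ∧ r ≤ ‖z‖ ∧ a ≤ (L z).re ∧ (L z).re < b} =
      ({z : ℂ | r ≤ ‖z‖} ∩ (ball (0 : ℂ) 1 ∩ (fun z => (L z).re) ⁻¹' Iio b)) \
        (ball (0 : ℂ) 1 ∩ (fun z => (L z).re) ⁻¹' Iio a) := by
    ext z
    constructor
    · rintro ⟨h4, h5, h6, h7⟩
      exact ⟨⟨h5, h4, h7⟩, fun h8 => absurd h8.2 (not_lt.2 h6)⟩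
    · rintro ⟨⟨h5, h4, h7⟩, h8⟩
      exact ⟨h4, h5, not_lt.1 fun h9 => h8 ⟨h4, h9⟩, h7⟩
  rw [h3]
  exact (h2.inter (h1 b)).diff (h1 a)

theorem en_add {p : ℝ} {L : ℂ → ℂ} (h : Cls p L) {r a b c : ℝ} (hab : a ≤ b) (hbc : b ≤ c) :
    en L r a c = en L r a b + en L r b c := by
  unfold en
  rw [← lintegral_union (en_meas h r b c)]
  · congr 2
    ext z
    constructor
    · rintro ⟨h1, h2, h3, h4⟩
      rcases lt_or_ge (L z).re b with h5 | h5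
      · exact Or.inl ⟨h1, h2, h3, h5⟩
      · exact Or.inr ⟨h1, h2, h5, h4⟩
    · rintro (⟨h1, h2, h3, h4⟩ | ⟨h1, h2, h3, h4⟩)
      · exact ⟨h1, h2, h3, lt_of_lt_of_le h4 hbc⟩
      · exact ⟨h1, h2, hab.trans h3, h4⟩
  · rw [Set.disjoint_left]
    rintro z ⟨-, -, -, h1⟩ ⟨-, -, h2, -⟩
    exact absurd h1 (not_lt.2 h2)

theorem bE_zero (L : ℂ → ℂ) (r : ℝ) : bE L r 0 = 0 := by
  unfold bE en
  have h : {z | z ∈ ball (0 : ℂ) 1 ∧ r ≤ ‖z‖ ∧ 0 ≤ (L z).re ∧ (L z).re < 0} = ∅ := by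
    ext z
    simp only [mem_setOf_eq, mem_empty_iff_false, iff_false]
    rintro ⟨-, -, h1, h2⟩
    exact absurd h2 (not_lt.2 h1)
  rw [h]
  simp

theorem bE_nonneg (L : ℂ → ℂ) (r s : ℝ) : 0 ≤ bE L r s := ENNReal.toReal_nonneg

private theorem en_ne_top {p : ℝ} (hp : 0 < p) (hp1 : p ≤ 1) {L : ℂ → ℂ} (h : Cls p L)
    {r a b : ℝ} (hab : a ≤ b) : en L r a b ≠ ⊤ :=
  ne_top_of_le_ne_top ENNReal.ofReal_ne_top (en_le hp hp1 h hab)

theorem bE_step {p : ℝ} (hp : 0 < p) (hp1 : p ≤ 1) {L : ℂ → ℂ} (h : Cls p L) {r s t : ℝ}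
    (hs : 0 ≤ s) (hst : s ≤ t) : bE L r t = bE L r s + (en L r s t).toReal := by
  unfold bE
  rw [en_add h hs hst, ENNReal.toReal_add (en_ne_top hp hp1 h hs) (en_ne_top hp hp1 h hst)]

theorem bE_le {p : ℝ} (hp : 0 < p) (hp1 : p ≤ 1) {L : ℂ → ℂ} (h : Cls p L) {r s t : ℝ}
    (hs : 0 ≤ s) (hst : s ≤ t) : bE L r t ≤ bE L r s + Real.pi * (2 * (t - s) + 3) := by
  rw [bE_step hp hp1 h hs hst]
  have h1 : 0 ≤ Real.pi * (2 * (t - s) + 3) :=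
    mul_nonneg Real.pi_pos.le (by linarith)
  have h2 := ENNReal.toReal_le_of_le_ofReal h1 (en_le hp hp1 h hst (r := r))
  linarith

theorem dv_lower {L : ℂ → ℂ} {z : ℂ} (hL : DifferentiableAt ℂ L z) {b : ℝ} (hb : 2 ≤ b)
    (h1 : 1 ≤ ‖Complex.exp (L z)‖) (h2 : ‖Complex.exp (L z)‖ ≤ b) :
    3 / 16 * ‖deriv L z‖ ≤ ‖MQV.dv (fun z => Complex.exp (L z)) 1 b z‖ := by
  unfold MQV.dv
  rw [deriv_exp_comp hL, norm_mul, norm_mul, norm_mul, RCLike.norm_conj, Complex.norm_real,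
    Real.norm_eq_abs]
  obtain ⟨x, hx⟩ : ∃ x : ℝ, x = ‖Complex.exp (L z)‖ := ⟨_, rfl⟩
  rw [← hx] at h1 h2 ⊢
  have hx0 : 0 < x := by linarith
  have hb0 : 0 < b := by linarith
  have h3 : 3 / 16 ≤ x * x * (1 / (1 ^ 2 + x ^ 2) - 1 / (b ^ 2 + x ^ 2)) := by
    have e1 : x * x * (1 / (1 ^ 2 + x ^ 2) - 1 / (b ^ 2 + x ^ 2)) =
        x ^ 2 * (b ^ 2 - 1) / ((1 + x ^ 2) * (b ^ 2 + x ^ 2)) := by
      have h4 : (1 : ℝ) + x ^ 2 ≠ 0 := by positivity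
      have h5 : b ^ 2 + x ^ 2 ≠ 0 := by positivity
      rw [one_pow]
      field_simp
      ring
    rw [e1, div_le_div_iff₀ (by norm_num) (by positivity)]
    have h4 : 1 ≤ x ^ 2 := one_le_pow₀ h1
    have h5 : x ^ 2 ≤ b ^ 2 := pow_le_pow_left₀ hx0.le h2 2
    have h6 : 4 ≤ b ^ 2 := by nlinarith
    have h7 : (1 + x ^ 2) * (b ^ 2 + x ^ 2) ≤ (2 * x ^ 2) * (2 * b ^ 2) :=
      mul_le_mul (by linarith) (by linarith) (by positivity) (by positivity)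
    have h8 : x ^ 2 * 4 ≤ x ^ 2 * b ^ 2 := mul_le_mul_of_nonneg_left h6 (by positivity)
    nlinarith
  have h4 : 0 ≤ ‖deriv L z‖ := norm_nonneg _
  calc 3 / 16 * ‖deriv L z‖
      ≤ (x * x * (1 / (1 ^ 2 + x ^ 2) - 1 / (b ^ 2 + x ^ 2))) * ‖deriv L z‖ :=
        mul_le_mul_of_nonneg_right h3 h4
    _ = x * ‖deriv L z‖ * x * (1 / (1 ^ 2 + x ^ 2) - 1 / (b ^ 2 + x ^ 2)) := by ring
    _ ≤ x * ‖deriv L z‖ * x * |1 / (1 ^ 2 + x ^ 2) - 1 / (b ^ 2 + x ^ 2)| :=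
        mul_le_mul_of_nonneg_left (le_abs_self _) (by positivity)

end KQU
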