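import Mathlib
import Pool.Agent.MPV.Defs

set_option autoImplicit false

/-!
# KQU : `K_p ≤ C (p - 1/4)^(-1/2)` (problem MP_a1ed50_an)

`f = exp ∘ L`, `U = Re L`, `r = 1 - 2/n`, `Om n = {1 - 2/n < |z| < 1 - 1/n}`,
`bE L r s` = energy `∫ |L'|²` of `{0 ≤ U < s}` in the annulus `{r ≤ |z| < 1}`.
-/

open MeasureTheory Metric Set

namespace KQU

/-- the annulus `1 - 2/n < |z| < 1 - 1/n` -/
def Om (n : ℕ) : Set ℂ := {z | 1 - 2 / (n : ℝ) < ‖z‖ ∧ ‖z‖ < 1 - 1 / (n : ℝ)}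

/-- energy of the levels `a ≤ Re L < b` in `{r ≤ |z| < 1}` -/
noncomputable def en (L : ℂ → ℂ) (r a b : ℝ) : ENNReal :=
  ∫⁻ z in {z | z ∈ ball (0 : ℂ) 1 ∧ r ≤ ‖z‖ ∧ a ≤ (L z).re ∧ (L z).re < b},
    ENNReal.ofReal (‖deriv L z‖ ^ 2)

/-- energy of the levels `0 ≤ Re L < s` in `{r ≤ |z| < 1}` -/
noncomputable def bE (L : ℂ → ℂ) (r s : ℝ) : ℝ := (en L r 0 s).toReal

end KQU
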