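import Pool.Agent.KQU.Bas
import Pool.Agent.MPV.Gro

set_option autoImplicit false

/-!
# KQU OB : comparison of the annulus with one circle

* `rad_lip`: `z ∈ Om n`, `w = (1 - 3/n) z/|z|`: `|L'| (1-|·|²) ≤ 4` (`Cls.deriv_le`, `p := 1`,
  `cls_mono`), on the segment `|·| ≤ 1 - 1/n`, `1 - |·|² ≥ 1/n`, length `≤ 2/n`: `|L z - L w| ≤ 8`.
* `vol_ang`: polar coordinates; `∫_{1-2/n}^{1-1/n} ρ dρ ≤ 1/n`, and a point of `Om n` with
  `Re L ≥ s` has `Re L ((1-3/n) e^{iθ}) ≥ s - 8`.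
* `vol_Om`: `π ((1-1/n)² - (1-2/n)²) ≤ 2π/n` (or from polar coordinates).
-/

open MeasureTheory Metric Set MPV

namespace KQU

theorem rad_lip {p : ℝ} (hp1 : p ≤ 1) {L : ℂ → ℂ} (h : Cls p L) {n : ℕ} (hn : 8 ≤ n)
    {ρ θ : ℝ} (h1 : 1 - 2 / (n : ℝ) ≤ ρ) (h2 : ρ < 1 - 1 / (n : ℝ)) :
    |(L (ρ * Complex.exp (θ * Complex.I))).re -
      (L ((1 - 3 / (n : ℝ) : ℝ) * Complex.exp (θ * Complex.I))).re| ≤ 8 := by
  have hC : Cls 1 L := cls_mono hp1 h
  have hn0 : (8 : ℝ) ≤ n := by exact_mod_cast hn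
  have hnpos : (0 : ℝ) < n := by linarith
  have hinv : 0 < 1 / (n : ℝ) := by positivity
  have hinv8 : 1 / (n : ℝ) ≤ 1 / 8 := one_div_le_one_div_of_le (by norm_num) hn0
  have e2 : 2 / (n : ℝ) = 2 * (1 / (n : ℝ)) := by ring
  have e3 : 3 / (n : ℝ) = 3 * (1 / (n : ℝ)) := by ring
  rw [e2] at h1
  rw [e3]
  have g5 : 1 / (n : ℝ) * n = 1 := by field_simp
  generalize 1 / (n : ℝ) = v at *
  set E : ℂ := Complex.exp (θ * Complex.I) with hE
  have hEn : ‖E‖ = 1 := Complex.norm_exp_ofReal_mul_I θ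
  have hnorm : ∀ t : ℝ, 0 ≤ t → ‖(t : ℂ) * E‖ = t := fun t ht => by
    rw [norm_mul, hEn, mul_one, Complex.norm_real, Real.norm_eq_abs, abs_of_nonneg ht]
  have hmem : ∀ t ∈ Icc (1 - 3 * v) ρ, (t : ℂ) * E ∈ ball (0 : ℂ) 1 := fun t ht => by
    rw [mem_ball_zero_iff, hnorm t (by linarith [ht.1])]
    linarith [ht.2]
  have hd : ∀ t ∈ Icc (1 - 3 * v) ρ, HasDerivWithinAt (fun t : ℝ => (L (t * E)).re)
      (E * deriv L (t * E)).re (Icc (1 - 3 * v) ρ) t := by
    intro t ht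
    have g1 : HasDerivAt (fun s : ℂ => s * E) E (t : ℂ) := by
      simpa using (hasDerivAt_id (t : ℂ)).mul_const E
    have g2 : HasDerivAt (fun s : ℂ => L (s * E)) (deriv L (t * E) * E) (t : ℂ) :=
      (h.hasDerivAt (hmem t ht)).comp (t : ℂ) g1
    have g3 := g2.real_of_complex
    rw [mul_comm] at g3
    exact g3.hasDerivWithinAt
  have hb : ∀ t ∈ Icc (1 - 3 * v) ρ, ‖(E * deriv L (t * E)).re‖ ≤ 4 * n := by
    intro t ht
    have ht0 : 0 ≤ t := by linarith [ht.1]
    have g1 := hC.deriv_le (by norm_num) (hmem t ht)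
    rw [hnorm t ht0] at g1
    have g2 : v ≤ 1 - t ^ 2 := by nlinarith [ht.2]
    have g3 : ‖deriv L (t * E)‖ * v ≤ 4 := by
      have := mul_le_mul_of_nonneg_left g2 (norm_nonneg (deriv L (t * E)))
      linarith
    have g4 : ‖deriv L (t * E)‖ ≤ 4 * n := by
      calc ‖deriv L (t * E)‖ = ‖deriv L (t * E)‖ * (v * n) := by rw [g5, mul_one]
        _ = (‖deriv L (t * E)‖ * v) * n := by ring
        _ ≤ 4 * n := mul_le_mul_of_nonneg_right g3 hnpos.le
    calc ‖(E * deriv L (t * E)).re‖ ≤ ‖E * deriv L (t * E)‖ := by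
          rw [Real.norm_eq_abs]; exact Complex.abs_re_le_norm _
      _ = ‖deriv L (t * E)‖ := by rw [norm_mul, hEn, one_mul]
      _ ≤ 4 * n := g4
  have hle : 1 - 3 * v ≤ ρ := by linarith
  have key := (convex_Icc (1 - 3 * v) ρ).norm_image_sub_le_of_norm_hasDerivWithin_le hd hb
    (left_mem_Icc.2 hle) (right_mem_Icc.2 hle)
  rw [Real.norm_eq_abs, Real.norm_eq_abs, abs_of_nonneg (by linarith : (0 : ℝ) ≤ ρ - (1 - 3 * v))]
    at key
  refine key.trans ?_
  have g6 : ρ - (1 - 3 * v) ≤ 2 * v := by linarith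
  calc 4 * (n : ℝ) * (ρ - (1 - 3 * v)) ≤ 4 * (n : ℝ) * (2 * v) :=
        mul_le_mul_of_nonneg_left g6 (by positivity)
    _ = 8 * (v * n) := by ring
    _ = 8 := by rw [g5, mul_one]

namespace Ob

theorem meas_Om (n : ℕ) : MeasurableSet (Om n) :=
  (measurableSet_lt measurable_const measurable_norm).inter
    (measurableSet_lt measurable_norm measurable_const)

theorem Om_ball {n : ℕ} (hn : 8 ≤ n) {z : ℂ} (hz : z ∈ Om n) : z ∈ ball (0 : ℂ) 1 := by
  rw [mem_ball_zero_iff]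
  have h1 := hz.2
  have hnpos : (0 : ℝ) < n := by
    have : (8 : ℝ) ≤ n := by exact_mod_cast hn
    linarith
  have hinv : 0 < 1 / (n : ℝ) := by positivity
  linarith

theorem vol_polar {n : ℕ} (hn : 8 ≤ n) {A : Set ℂ} (hA : MeasurableSet A) (hAO : A ⊆ Om n)
    {Θ : Set ℝ} (hΘ : ∀ φ ∈ Ioo (-Real.pi) Real.pi, ∀ x : ℝ, 1 - 2 / (n : ℝ) < x →
      x < 1 - 1 / (n : ℝ) → (x : ℂ) * Complex.exp (φ * Complex.I) ∈ A → φ ∈ Θ) :
    volume A ≤ ENNReal.ofReal (1 / (n : ℝ)) * volume (Θ ∩ Ioo (-Real.pi) Real.pi) := by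
  have hn0 : (8 : ℝ) ≤ n := by exact_mod_cast hn
  have hnpos : (0 : ℝ) < n := by linarith
  have hinv : 0 < 1 / (n : ℝ) := by positivity
  have hinv8 : 1 / (n : ℝ) ≤ 1 / 8 := one_div_le_one_div_of_le (by norm_num) hn0
  have e2 : 2 / (n : ℝ) = 2 * (1 / (n : ℝ)) := by ring
  have hsymm : ∀ x φ : ℝ, Complex.polarCoord.symm (x, φ) = (x : ℂ) * Complex.exp (φ * Complex.I) :=
    fun x φ => by
      rw [Complex.polarCoord_symm_apply, Complex.exp_mul_I, Complex.ofReal_cos, Complex.ofReal_sin]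
  have hF : Measurable (A.indicator (fun _ => (1 : ENNReal))) := measurable_const.indicator hA
  have h1 : volume A = ∫⁻ z, A.indicator (fun _ => (1 : ENNReal)) z := by
    rw [lintegral_indicator hA, setLIntegral_one]
  rw [h1, ← Complex.lintegral_comp_polarCoord_symm]
  have h2 : polarCoord.target = Ioi (0 : ℝ) ×ˢ Ioo (-Real.pi) Real.pi := rfl
  rw [h2]
  have hmeas : Measurable fun p : ℝ × ℝ =>
      ENNReal.ofReal p.1 • A.indicator (fun _ => (1 : ENNReal)) (Complex.polarCoord.symm p) := by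
    have e : (fun p : ℝ × ℝ => ENNReal.ofReal p.1 •
        A.indicator (fun _ => (1 : ENNReal)) (Complex.polarCoord.symm p)) =
        fun p : ℝ × ℝ => ENNReal.ofReal p.1 *
          A.indicator (fun _ => (1 : ENNReal)) ((p.1 : ℂ) * Complex.exp (p.2 * Complex.I)) := by
      funext p
      have := hsymm p.1 p.2
      rw [show (p.1, p.2) = p from rfl] at this
      rw [this, smul_eq_mul]
    rw [e]
    have hm : Measurable fun p : ℝ × ℝ => (p.1 : ℂ) * Complex.exp (p.2 * Complex.I) := by fun_prop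
    exact (ENNReal.measurable_ofReal.comp measurable_fst).mul (hF.comp hm)
  rw [Measure.volume_eq_prod, setLIntegral_prod_symm _ hmeas.aemeasurable]
  have h3 : ∀ φ ∈ Ioo (-Real.pi) Real.pi, (∫⁻ x in Ioi (0 : ℝ), ENNReal.ofReal (x, φ).1 •
      A.indicator (fun _ => (1 : ENNReal)) (Complex.polarCoord.symm (x, φ))) ≤
      Θ.indicator (fun _ => ENNReal.ofReal (1 / (n : ℝ))) φ := by
    intro φ hφ
    by_cases hin : φ ∈ Θ
    · rw [indicator_of_mem hin]
      calc (∫⁻ x in Ioi (0 : ℝ), ENNReal.ofReal (x, φ).1 •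
            A.indicator (fun _ => (1 : ENNReal)) (Complex.polarCoord.symm (x, φ)))
          ≤ ∫⁻ x in Ioi (0 : ℝ), (Ioo (1 - 2 / (n : ℝ)) (1 - 1 / (n : ℝ))).indicator
              (fun _ => (1 : ENNReal)) x := by
            refine setLIntegral_mono' measurableSet_Ioi fun x hx => ?_
            have hx0 : 0 < x := hx
            rw [hsymm, smul_eq_mul]
            by_cases hxA : (x : ℂ) * Complex.exp (φ * Complex.I) ∈ A
            · have hO := hAO hxA
              have hnx : ‖(x : ℂ) * Complex.exp (φ * Complex.I)‖ = x := by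
                rw [norm_mul, Complex.norm_exp_ofReal_mul_I, mul_one, Complex.norm_real,
                  Real.norm_eq_abs, abs_of_pos hx0]
              have hO1 := hO.1
              have hO2 := hO.2
              rw [hnx] at hO1 hO2
              rw [indicator_of_mem hxA, indicator_of_mem (show x ∈ Ioo _ _ from ⟨hO1, hO2⟩), mul_one]
              rw [← ENNReal.ofReal_one]
              exact ENNReal.ofReal_le_ofReal (by linarith)
            · rw [indicator_of_notMem hxA, mul_zero]; exact bot_le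
        _ ≤ ∫⁻ x, (Ioo (1 - 2 / (n : ℝ)) (1 - 1 / (n : ℝ))).indicator
              (fun _ => (1 : ENNReal)) x := setLIntegral_le_lintegral _ _
        _ = ENNReal.ofReal (1 / (n : ℝ)) := by
            rw [lintegral_indicator measurableSet_Ioo, setLIntegral_one, Real.volume_Ioo]
            congr 1
            ring
    · rw [indicator_of_notMem hin]
      refine le_of_eq ?_
      rw [setLIntegral_congr_fun (g := fun _ => 0) measurableSet_Ioi, lintegral_zero]
      intro x hx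
      have hx0 : 0 < x := hx
      have hxA : (x : ℂ) * Complex.exp (φ * Complex.I) ∉ A := by
        intro hxA
        have hO := hAO hxA
        have hnx : ‖(x : ℂ) * Complex.exp (φ * Complex.I)‖ = x := by
          rw [norm_mul, Complex.norm_exp_ofReal_mul_I, mul_one, Complex.norm_real,
            Real.norm_eq_abs, abs_of_pos hx0]
        have hO1 := hO.1
        have hO2 := hO.2
        rw [hnx] at hO1 hO2
        exact hin (hΘ φ hφ x hO1 hO2 hxA)
      change ENNReal.ofReal x • A.indicator (fun _ => (1 : ENNReal))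
        (Complex.polarCoord.symm (x, φ)) = 0
      rw [hsymm, indicator_of_notMem hxA, smul_zero]
  calc (∫⁻ φ in Ioo (-Real.pi) Real.pi, ∫⁻ x in Ioi (0 : ℝ), ENNReal.ofReal (x, φ).1 •
        A.indicator (fun _ => (1 : ENNReal)) (Complex.polarCoord.symm (x, φ)))
      ≤ ∫⁻ φ in Ioo (-Real.pi) Real.pi, Θ.indicator (fun _ => ENNReal.ofReal (1 / (n : ℝ))) φ :=
        setLIntegral_mono' measurableSet_Ioo h3
    _ ≤ ENNReal.ofReal (1 / (n : ℝ)) * (volume.restrict (Ioo (-Real.pi) Real.pi)) Θ :=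
        lintegral_indicator_const_le _ _
    _ = ENNReal.ofReal (1 / (n : ℝ)) * volume (Θ ∩ Ioo (-Real.pi) Real.pi) := by
        rw [Measure.restrict_apply' measurableSet_Ioo]

end Ob

open Ob

theorem vol_ang {p : ℝ} (hp1 : p ≤ 1) {L : ℂ → ℂ} (h : Cls p L) {n : ℕ} (hn : 8 ≤ n) (s : ℝ) :
    volume {z | z ∈ Om n ∧ s ≤ (L z).re} ≤ ENNReal.ofReal (1 / (n : ℝ)) *
      volume {θ : ℝ | θ ∈ Ioo (-Real.pi) Real.pi ∧
        s - 8 ≤ (L ((1 - 3 / (n : ℝ) : ℝ) * Complex.exp (θ * Complex.I))).re} := by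
  have hcont : ContinuousOn (fun z => (L z).re) (ball (0 : ℂ) 1) :=
    Complex.continuous_re.comp_continuousOn h.diff.continuousOn
  have hopen : IsOpen (ball (0 : ℂ) 1 ∩ (fun z => (L z).re) ⁻¹' Iio s) :=
    hcont.isOpen_inter_preimage isOpen_ball isOpen_Iio
  have hA : MeasurableSet {z | z ∈ Om n ∧ s ≤ (L z).re} := by
    have e : {z | z ∈ Om n ∧ s ≤ (L z).re} =
        Om n \ (ball (0 : ℂ) 1 ∩ (fun z => (L z).re) ⁻¹' Iio s) := by
      ext z
      constructor
      · rintro ⟨h1, h2⟩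
        exact ⟨h1, fun h3 => absurd h3.2 (not_lt.2 h2)⟩
      · rintro ⟨h1, h2⟩
        refine ⟨h1, ?_⟩
        by_contra h3
        exact h2 ⟨Om_ball hn h1, not_le.1 h3⟩
    rw [e]
    exact (meas_Om n).diff hopen.measurableSet
  have key := vol_polar hn hA (fun z hz => hz.1)
    (Θ := {θ : ℝ | s - 8 ≤ (L ((1 - 3 / (n : ℝ) : ℝ) * Complex.exp (θ * Complex.I))).re})
    (fun φ _ x hx1 hx2 hxA => by
      have h1 := rad_lip hp1 h hn (θ := φ) hx1.le hx2
      have h2 := (abs_le.1 h1).2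
      have h3 : s ≤ (L (x * Complex.exp (φ * Complex.I))).re := hxA.2
      change s - 8 ≤ _
      linarith)
  refine key.trans (le_of_eq ?_)
  congr 2
  ext θ
  constructor
  · rintro ⟨h1, h2⟩; exact ⟨h2, h1⟩
  · rintro ⟨h1, h2⟩; exact ⟨h2, h1⟩

theorem vol_Om {n : ℕ} (hn : 8 ≤ n) : volume (Om n) ≤ ENNReal.ofReal (2 * Real.pi / n) := by
  have hn0 : (8 : ℝ) ≤ n := by exact_mod_cast hn
  have hnpos : (0 : ℝ) < n := by linarith
  have key := vol_polar hn (meas_Om n) (subset_refl _) (Θ := univ) (fun _ _ _ _ _ _ => trivial)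
  refine key.trans (le_of_eq ?_)
  rw [univ_inter, Real.volume_Ioo, ← ENNReal.ofReal_mul (by positivity)]
  congr 1
  field_simp
  ring

end KQU
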