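import Pool.Agent.KQU.Defs
import Pool.Agent.MPV.Ene
import Pool.Agent.MPV.Ray

set_option autoImplicit false

/-!
# KQU RM : few rays rise through a level

`U ≤ s` on the circle `ρ - d`, `E = {θ : U (ρ e^{iθ}) ≥ s + 1}`.  On a ray with `θ ∈ E`:
`MPV.ray_energy` for `φ x = U ((c - x) e^{iθ})`, `c = ρ + d`, `a = d`, `b = 2d`
(`φ a = U (ρ e^{iθ})`, `φ b = U ((ρ-d) e^{iθ})`), `A = s`, `B = s + 1`:
`1/log 2 ≤ ∫_{d<x<2d, s<φ<s+1} φ'² x dx ≤ 2d ∫ |L'|² dρ' ≤ 4d ∫ |L'|² ρ' dρ'` (`ρ' ≥ 1/2`).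
Integrate over `θ ∈ E` (polar coordinates): `|E| / (4 d log 2) ≤ ∫_{s<U<s+1} |L'|² ≤ 3π`.
-/

open MeasureTheory Metric Set MPV

namespace KQU

/-- the energy on one ray -/
private theorem rm_ray {L : ℂ → ℂ} (hL : DifferentiableOn ℂ L (ball 0 1)) {ρ d s θ : ℝ}
    (hd0 : 0 < d) (hρd : 1 / 2 ≤ ρ - d) (hρ : ρ < 1)
    (hlow : ∀ z : ℂ, ‖z‖ = ρ - d → (L z).re ≤ s)
    (hθ : s + 1 ≤ (L (ρ * Complex.exp (θ * Complex.I))).re) {G : ℂ → ENNReal}
    (hG : ∀ z : ℂ, z ∈ ball (0 : ℂ) 1 → s < (L z).re → (L z).re < s + 1 →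
      G z = ENNReal.ofReal (‖deriv L z‖ ^ 2)) :
    ENNReal.ofReal (1 / (4 * d * Real.log 2)) ≤
      ∫⁻ x in Ioi (0 : ℝ), ENNReal.ofReal x • G (x * Complex.exp (θ * Complex.I)) := by
  have hlog : 0 < Real.log 2 := Real.log_pos (by norm_num)
  set c : ℝ := ρ + d with hc
  set P : ℝ → ℂ := fun x => ((c - x : ℝ) : ℂ) * Complex.exp (θ * Complex.I) with hP
  have hPn : ∀ x : ℝ, ‖P x‖ = |c - x| := by
    intro x
    simp only [hP]
    rw [norm_mul, Complex.norm_exp_ofReal_mul_I, mul_one, Complex.norm_real, Real.norm_eq_abs]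
  have hPd : ∀ x : ℝ, HasDerivAt P (-Complex.exp (θ * Complex.I)) x := by
    intro x
    have h2 : HasDerivAt (fun x : ℝ => ((c - x : ℝ) : ℂ)) (-1) x := by
      have h3 : HasDerivAt (fun x : ℝ => c - x) (-1) x := by
        simpa using (hasDerivAt_id x).const_sub c
      have h4 := h3.ofReal_comp
      simpa using h4
    refine (h2.mul_const (Complex.exp (θ * Complex.I))).congr_deriv ?_
    ring
  have hPball : ∀ x ∈ Set.Icc d (2 * d), P x ∈ ball (0 : ℂ) 1 := by
    intro x hx
    rw [mem_ball_zero_iff, hPn, abs_lt]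
    constructor <;> linarith [hx.1, hx.2]
  have hPc : Continuous P := continuous_iff_continuousAt.2 fun x => (hPd x).continuousAt
  have hd : ∀ x ∈ Set.Icc d (2 * d), HasDerivAt (fun x => (L (P x)).re)
      ((deriv L (P x) * -Complex.exp (θ * Complex.I)).re) x := by
    intro x hx
    have h2 : HasDerivAt L (deriv L (P x)) (P x) :=
      (hL.differentiableAt (isOpen_ball.mem_nhds (hPball x hx))).hasDerivAt
    have h3 : HasDerivAt (fun x => L (P x)) (deriv L (P x) * -Complex.exp (θ * Complex.I)) x :=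
      HasDerivAt.comp x h2 (hPd x)
    exact (Complex.reCLM.hasFDerivAt (x := L (P x))).comp_hasDerivAt x h3
  have hcc : ContinuousOn (fun x => (deriv L (P x) * -Complex.exp (θ * Complex.I)).re)
      (Set.Icc d (2 * d)) := by
    have h2 : ContinuousOn (deriv L) (ball 0 1) := (hL.deriv isOpen_ball).continuousOn
    have h3 : ContinuousOn (fun x => deriv L (P x)) (Set.Icc d (2 * d)) :=
      h2.comp hPc.continuousOn hPball
    exact Complex.continuous_re.comp_continuousOn (h3.mul continuousOn_const)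
  have hB : s + 1 ≤ (L (P d)).re := by
    have e : P d = ρ * Complex.exp (θ * Complex.I) := by
      simp only [hP, hc]
      congr 1
      push_cast
      ring
    rw [e]
    exact hθ
  have hA : (L (P (2 * d))).re ≤ s := by
    apply hlow
    rw [hPn, abs_of_nonneg (by linarith)]
    ring
  have key := ray_energy hd0 (by linarith : d < 2 * d) hd hcc hB hA (by linarith : s < s + 1)
  have e1 : (s + 1 - s) ^ 2 / Real.log (2 * d / d) = 1 / Real.log 2 := by
    rw [mul_div_cancel_right₀ _ hd0.ne']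
    congr 1
    ring
  rw [e1] at key
  -- comparison with the full ray
  have hfc : ContinuousOn (fun x => (L (P x)).re) (Set.Ioo d (2 * d)) := fun x hx =>
    (hd x (Set.Ioo_subset_Icc_self hx)).continuousAt.continuousWithinAt
  have hT : IsOpen (Set.Ioo d (2 * d) ∩ (fun x => (L (P x)).re) ⁻¹' Set.Ioo s (s + 1)) :=
    hfc.isOpen_inter_preimage isOpen_Ioo isOpen_Ioo
  have hTe : {x | x ∈ Set.Ioo d (2 * d) ∧ s < (L (P x)).re ∧ (L (P x)).re < s + 1} =
      Set.Ioo d (2 * d) ∩ (fun x => (L (P x)).re) ⁻¹' Set.Ioo s (s + 1) := rfl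
  rw [hTe, ← lintegral_indicator hT.measurableSet] at key
  have h5 : ∫⁻ x, (Set.Ioo d (2 * d) ∩ (fun x => (L (P x)).re) ⁻¹' Set.Ioo s (s + 1)).indicator
      (fun x => ENNReal.ofReal
        ((deriv L (P x) * -Complex.exp (θ * Complex.I)).re ^ 2 * x)) x ≤
      ∫⁻ x, ENNReal.ofReal (4 * d) * (Ioi (0 : ℝ)).indicator
        (fun x => ENNReal.ofReal x • G (x * Complex.exp (θ * Complex.I))) (c - x) := by
    apply lintegral_mono
    intro x
    simp only
    by_cases hx : x ∈ Set.Ioo d (2 * d) ∩ (fun x => (L (P x)).re) ⁻¹' Set.Ioo s (s + 1)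
    · rw [Set.indicator_of_mem hx]
      have hx1 : c - x ∈ Ioi (0 : ℝ) := by
        show 0 < c - x
        linarith [hx.1.2]
      have hx0 : 0 < x := hd0.trans hx.1.1
      rw [Set.indicator_of_mem hx1]
      have h6 : G (((c - x : ℝ) : ℂ) * Complex.exp (θ * Complex.I)) =
          ENNReal.ofReal (‖deriv L (P x)‖ ^ 2) :=
        hG (P x) (hPball x (Set.Ioo_subset_Icc_self hx.1)) hx.2.1 hx.2.2
      rw [h6, smul_eq_mul, ← ENNReal.ofReal_mul (show 0 ≤ c - x from (le_of_lt hx1)),
        ← ENNReal.ofReal_mul (by positivity)]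
      refine ENNReal.ofReal_le_ofReal ?_
      have h3 : |(deriv L (P x) * -Complex.exp (θ * Complex.I)).re| ≤ ‖deriv L (P x)‖ := by
        refine (Complex.abs_re_le_norm _).trans ?_
        rw [norm_mul, norm_neg, Complex.norm_exp_ofReal_mul_I, mul_one]
      have h4 : (deriv L (P x) * -Complex.exp (θ * Complex.I)).re ^ 2 ≤
          ‖deriv L (P x)‖ ^ 2 := by
        rw [← sq_abs]
        exact pow_le_pow_left₀ (abs_nonneg _) h3 2
      have h7 : x ≤ 4 * d * (c - x) := by
        have : x < 2 * d := hx.1.2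
        nlinarith
      calc (deriv L (P x) * -Complex.exp (θ * Complex.I)).re ^ 2 * x
          ≤ ‖deriv L (P x)‖ ^ 2 * (4 * d * (c - x)) :=
            mul_le_mul h4 h7 hx0.le (by positivity)
        _ = 4 * d * ((c - x) * ‖deriv L (P x)‖ ^ 2) := by ring
    · rw [Set.indicator_of_notMem hx]
      exact zero_le
  have h6 := key.trans h5
  rw [lintegral_const_mul' _ _ ENNReal.ofReal_ne_top,
    lintegral_sub_left_eq_self (μ := volume) (fun y => (Ioi (0 : ℝ)).indicator
        (fun x => ENNReal.ofReal x • G (x * Complex.exp (θ * Complex.I))) y) c,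
    lintegral_indicator measurableSet_Ioi] at h6
  have h7 : ENNReal.ofReal (1 / (4 * d * Real.log 2)) * ENNReal.ofReal (4 * d) =
      ENNReal.ofReal (1 / Real.log 2) := by
    rw [← ENNReal.ofReal_mul (by positivity)]
    congr 1
    field_simp
  rw [← h7, mul_comm] at h6
  exact (ENNReal.mul_le_mul_iff_right (by simpa using hd0) ENNReal.ofReal_ne_top).1 h6

theorem ray_meas : ∃ C : ℝ, 0 < C ∧ ∀ p : ℝ, 0 < p → p ≤ 1 → ∀ L : ℂ → ℂ, Cls p L →
    ∀ ρ d s : ℝ, 0 < d → 1 / 2 ≤ ρ - d → ρ < 1 →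
      (∀ z : ℂ, ‖z‖ = ρ - d → (L z).re ≤ s) →
      volume {θ : ℝ | θ ∈ Ioo (-Real.pi) Real.pi ∧
        s + 1 ≤ (L (ρ * Complex.exp (θ * Complex.I))).re} ≤ ENNReal.ofReal (C * d) := by
  have hlog : 0 < Real.log 2 := Real.log_pos (by norm_num)
  refine ⟨12 * Real.pi * Real.log 2, by positivity, ?_⟩
  intro p hp hp1 L hL ρ d s hd hρd hρ hlow
  set S : Set ℂ := {z | z ∈ ball (0 : ℂ) 1 ∧ s < (L z).re ∧ (L z).re < s + 1} with hS
  have hcL : ContinuousOn (fun z => (L z).re) (ball (0 : ℂ) 1) :=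
    Complex.continuous_re.comp_continuousOn hL.diff.continuousOn
  have hSm : MeasurableSet S := by
    have h2 : IsOpen (ball (0 : ℂ) 1 ∩ (fun z => (L z).re) ⁻¹' Set.Ioo s (s + 1)) :=
      hcL.isOpen_inter_preimage isOpen_ball isOpen_Ioo
    exact h2.measurableSet
  set G : ℂ → ENNReal := S.indicator fun z => ENNReal.ofReal (‖deriv L z‖ ^ 2) with hG
  have hGm : Measurable G := by
    refine Measurable.indicator ?_ hSm
    exact ENNReal.measurable_ofReal.comp ((measurable_deriv L).norm.pow_const 2)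
  have hGe : ∀ z : ℂ, z ∈ ball (0 : ℂ) 1 → s < (L z).re → (L z).re < s + 1 →
      G z = ENNReal.ofReal (‖deriv L z‖ ^ 2) := by
    intro z a b c
    exact Set.indicator_of_mem (show z ∈ S from ⟨a, b, c⟩) _
  have hen := hL.energy hp (show s ≤ s + 1 by linarith)
  rw [← hS, ← lintegral_indicator hSm, ← hG, ← Complex.lintegral_comp_polarCoord_symm,
    polarCoord_target] at hen
  have hFm : Measurable fun q : ℝ × ℝ => ENNReal.ofReal q.1 • G (Complex.polarCoord.symm q) := by
    have h2 : Measurable fun q : ℝ × ℝ => Complex.polarCoord.symm q := by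
      simp only [Complex.polarCoord_symm_apply]
      fun_prop
    exact (ENNReal.measurable_ofReal.comp measurable_fst).smul (hGm.comp h2)
  rw [Measure.volume_eq_prod, ← Measure.prod_restrict, lintegral_prod_symm' _ hFm] at hen
  -- the set of angles
  set E : Set ℝ := {θ : ℝ | θ ∈ Ioo (-Real.pi) Real.pi ∧
    s + 1 ≤ (L (ρ * Complex.exp (θ * Complex.I))).re} with hE
  have hEm : MeasurableSet E := by
    have h3 : Continuous fun θ : ℝ => (ρ : ℂ) * Complex.exp (θ * Complex.I) := by fun_prop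
    have h4 : Continuous fun θ : ℝ => (L (ρ * Complex.exp (θ * Complex.I))).re := by
      rw [← continuousOn_univ]
      refine hcL.comp h3.continuousOn fun θ _ => ?_
      rw [mem_ball_zero_iff, norm_mul, Complex.norm_exp_ofReal_mul_I, mul_one, Complex.norm_real,
        Real.norm_eq_abs, abs_of_nonneg (by linarith)]
      exact hρ
    exact measurableSet_Ioo.inter (measurableSet_le measurable_const h4.measurable)
  have hray : ∀ θ ∈ E, ENNReal.ofReal (1 / (4 * d * Real.log 2)) ≤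
      ∫⁻ x in Ioi (0 : ℝ), ENNReal.ofReal x • G (Complex.polarCoord.symm (x, θ)) := by
    intro θ hθ
    refine (rm_ray hL.diff hd hρd hρ hlow hθ.2 hGe).trans (le_of_eq ?_)
    refine lintegral_congr fun x => ?_
    rw [Complex.polarCoord_symm_apply, Complex.exp_mul_I]
    simp only [Complex.ofReal_cos, Complex.ofReal_sin]
  have h8 : ENNReal.ofReal (1 / (4 * d * Real.log 2)) * volume E ≤
      ENNReal.ofReal (Real.pi * p * (2 * (s + 1 - s) + 1)) := by
    refine le_trans ?_ hen
    rw [← setLIntegral_const]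
    refine (setLIntegral_mono' hEm hray).trans ?_
    exact lintegral_mono_set fun θ hθ => hθ.1
  have h9 : ENNReal.ofReal (Real.pi * p * (2 * (s + 1 - s) + 1)) ≤
      ENNReal.ofReal (1 / (4 * d * Real.log 2)) *
        ENNReal.ofReal (12 * Real.pi * Real.log 2 * d) := by
    rw [← ENNReal.ofReal_mul (by positivity)]
    refine ENNReal.ofReal_le_ofReal ?_
    have e : 1 / (4 * d * Real.log 2) * (12 * Real.pi * Real.log 2 * d) = 3 * Real.pi := by
      field_simp
      ring
    rw [e]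
    nlinarith [Real.pi_pos]
  have hpos : (0 : ℝ) < 1 / (4 * d * Real.log 2) := by positivity
  exact (ENNReal.mul_le_mul_iff_right (by simpa using hpos) ENNReal.ofReal_ne_top).1
    (h8.trans h9)

end KQU
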