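import Pool.Agent.KQU.Gs
import Pool.Agent.KQU.Rm
import Pool.Agent.KQU.Ob

set_option autoImplicit false

/-!
# KQU DS : the distribution of `U` on the annulus `Om n`

`C₁` from `grow_star`, `C₂` from `ray_meas`, `r = 1 - 2/n`, `r₀ = 1 - 3/n`.
* `top_level`: `z ∈ Om n`, `w = r₀ z/|z|`, `U(z) ≤ U(w) + 8` (`rad_lip`), and if `U(w) ≥ 0`:
  `U(w) ≤ 2p log ((r+r₀)/(r-r₀)) + C₁ ≤ 2p log (2n) + C₁` (`bE ≥ 0`).
* `dist`: `s' = s - 9`.  Write `D(s) = (s + bE s/200)/(2p)`.  By `bE_le` (`s' → s`):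
  `D(s) ≤ D(s') + C` (`1/(2p) ≤ 2`).  If `s' ≤ 0`: `D(s) ≤ C` and `vol_Om`.  Else put
  `x = 2 exp (-D(s') + C₁/(2p))`: by `grow_star`, `|z| < r` and `U(z) ≥ s'` imply
  `exp (D(s') - C₁/(2p)) ≤ (r+|z|)/(r-|z|) ≤ 2/(r-|z|)`, i.e. `r - |z| ≤ x` (`ds_close`).
  - `x ≥ 1/16`: `D(s) ≤ C`, `vol_Om`.
  - `x < 1/16` and `r - 2x < r₀`: `ray_meas` with `ρ = r₀`, `d = r₀ - (r - 2x) ≤ 2x`, level `s'`
    (`r - 2x ≥ 3/4 - 1/8 ≥ 1/2`; on the circle `r - 2x`: `U < s'`), so the set of `θ` with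
    `U(r₀ e^{iθ}) ≥ s' + 1 = s - 8` has measure `≤ 2 C₂ x`; `vol_ang`.
  - `r₀ ≤ r - 2x`: no `θ` (then `r - r₀ ≥ 2x > x`, so `U(r₀ e^{iθ}) < s'`); `vol_ang`.
-/

open MeasureTheory Metric Set MPV

namespace KQU

theorem top_level : ∃ C : ℝ, 0 < C ∧ ∀ p : ℝ, 1 / 4 ≤ p → p ≤ 1 → ∀ L : ℂ → ℂ, Cls p L →
    (L 0).re = 0 → ∀ n : ℕ, 8 ≤ n → ∀ z ∈ Om n, (L z).re ≤ 2 * p * Real.log n + C := by
  obtain ⟨C1, hC1, H1⟩ := grow_star
  refine ⟨C1 + 10, by linarith, fun p hp hp1 L hL hL0 n hn z hz => ?_⟩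
  have hp0 : 0 < p := by linarith
  have hn8 : (8 : ℝ) ≤ n := by exact_mod_cast hn
  have hn0 : (0 : ℝ) < n := by linarith
  have hlogn : 0 ≤ Real.log n := Real.log_nonneg (by linarith)
  have hi : 1 / (n : ℝ) ≤ 1 / 8 := one_div_le_one_div_of_le (by norm_num) hn8
  have hi0 : 0 < 1 / (n : ℝ) := by positivity
  have e2 : 2 / (n : ℝ) = 2 * (1 / (n : ℝ)) := by ring
  have e3 : 3 / (n : ℝ) = 3 * (1 / (n : ℝ)) := by ring
  have h1 := rad_lip (θ := Complex.arg z) hp1 hL hn hz.1.le hz.2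
  rw [Complex.norm_mul_exp_arg_mul_I] at h1
  set w : ℂ := ((1 - 3 / (n : ℝ) : ℝ) : ℂ) * Complex.exp (Complex.arg z * Complex.I) with hw
  have hwn : ‖w‖ = 1 - 3 / (n : ℝ) := by
    rw [hw, norm_mul, Complex.norm_exp_ofReal_mul_I, mul_one, Complex.norm_real,
      Real.norm_of_nonneg (by rw [e3]; linarith)]
  have h2 := (abs_le.1 h1).2
  by_cases h3 : 0 ≤ (L w).re
  · have h4 := H1 p hp0 hp1 L hL hL0 (1 - 2 / (n : ℝ)) (by rw [e2]; linarith)
      (by rw [e2]; linarith) w (by rw [hwn, e2, e3]; linarith) (L w).re h3 le_rfl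
    have h5 := bE_nonneg L (1 - 2 / (n : ℝ)) (L w).re
    have h6 : Real.log ((1 - 2 / (n : ℝ) + ‖w‖) / (1 - 2 / (n : ℝ) - ‖w‖)) ≤
        Real.log 2 + Real.log n := by
      rw [← Real.log_mul (by norm_num) hn0.ne']
      have e4 : 1 - 2 / (n : ℝ) - ‖w‖ = 1 / (n : ℝ) := by
        rw [hwn]
        ring
      rw [e4]
      refine Real.log_le_log ?_ ?_
      · refine div_pos ?_ hi0
        rw [hwn, e2, e3]
        linarith
      · rw [div_le_iff₀ hi0]
        have e5 : 2 * (n : ℝ) * (1 / n) = 2 := by field_simp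
        rw [e5, hwn, e2, e3]
        linarith
    have h7 : Real.log 2 ≤ 1 := by
      have := Real.log_two_lt_d9
      linarith
    have h8 : 2 * p * Real.log ((1 - 2 / (n : ℝ) + ‖w‖) / (1 - 2 / (n : ℝ) - ‖w‖)) ≤
        2 * p * (1 + Real.log n) := mul_le_mul_of_nonneg_left (by linarith) (by linarith)
    nlinarith
  · have h5 : 0 ≤ 2 * p * Real.log n := by positivity
    have h4 := not_le.1 h3
    linarith

/-- by the growth theorem, large values occur near the circle `|z| = r` only -/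
private theorem ds_close {p C1 : ℝ} (hp : 0 < p) {r D x t : ℝ} (hx : x = 2 * Real.exp (-D + C1 / (2 * p)))
    (hr1 : r < 1) (ht0 : 0 ≤ t) (ht : t < r)
    (h : D * (2 * p) ≤ 2 * p * Real.log ((r + t) / (r - t)) + C1) : r - t ≤ x := by
  have hrt : 0 < r - t := by linarith
  have h1 : D - C1 / (2 * p) ≤ Real.log ((r + t) / (r - t)) := by
    have h2 : (D - C1 / (2 * p)) * (2 * p) ≤ Real.log ((r + t) / (r - t)) * (2 * p) := by
      rw [sub_mul, div_mul_cancel₀ _ (by positivity)]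
      linarith
    exact le_of_mul_le_mul_right h2 (by positivity)
  have h3 : Real.exp (D - C1 / (2 * p)) ≤ (r + t) / (r - t) := by
    refine (Real.exp_le_exp.2 h1).trans ?_
    rw [Real.exp_log (div_pos (by linarith) hrt)]
  rw [le_div_iff₀ hrt] at h3
  have h4 : Real.exp (-D + C1 / (2 * p)) * Real.exp (D - C1 / (2 * p)) = 1 := by
    rw [← Real.exp_add]
    have : -D + C1 / (2 * p) + (D - C1 / (2 * p)) = 0 := by ring
    rw [this, Real.exp_zero]
  have h5 := Real.exp_pos (-D + C1 / (2 * p))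
  have h6 := mul_le_mul_of_nonneg_left h3 h5.le
  rw [← mul_assoc, h4, one_mul] at h6
  rw [hx]
  nlinarith

theorem dist : ∃ C : ℝ, 0 < C ∧ ∀ p : ℝ, 1 / 4 ≤ p → p ≤ 1 → ∀ L : ℂ → ℂ, Cls p L →
    (L 0).re = 0 → ∀ n : ℕ, 8 ≤ n → ∀ s : ℝ, 0 ≤ s →
      volume {z | z ∈ Om n ∧ s ≤ (L z).re} ≤ ENNReal.ofReal (C / n *
        Real.exp (-((s + bE L (1 - 2 / (n : ℝ)) s / 200) / (2 * p)))) := by
  obtain ⟨C1, hC1, H1⟩ := grow_star
  obtain ⟨C2, hC2, H2⟩ := ray_meas
  refine ⟨(7 + 4 * C2) * Real.exp (2 * C1 + 23), by positivity,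
    fun p hp hp1 L hL hL0 n hn s hs => ?_⟩
  have hp0 : 0 < p := by linarith
  have hn8 : (8 : ℝ) ≤ n := by exact_mod_cast hn
  have hn0 : (0 : ℝ) < n := by linarith
  have hi : 1 / (n : ℝ) ≤ 1 / 8 := one_div_le_one_div_of_le (by norm_num) hn8
  have hi0 : 0 < 1 / (n : ℝ) := by positivity
  have e2 : 2 / (n : ℝ) = 2 * (1 / (n : ℝ)) := by ring
  have e3 : 3 / (n : ℝ) = 3 * (1 / (n : ℝ)) := by ring
  obtain ⟨r, hr⟩ : ∃ r : ℝ, r = 1 - 2 / (n : ℝ) := ⟨_, rfl⟩
  rw [← hr]
  have hr0 : 3 / 4 ≤ r := by rw [hr, e2]; linarith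
  have hr1 : r < 1 := by rw [hr, e2]; linarith
  have hpi := Real.pi_pos
  have hpi4 : Real.pi ≤ 3.15 := by linarith [Real.pi_lt_d2]
  obtain ⟨D, hD⟩ : ∃ D : ℝ → ℝ, D = fun s => (s + bE L r s / 200) / (2 * p) := ⟨_, rfl⟩
  have hDs : ∀ s, (s + bE L r s / 200) / (2 * p) = D s := fun s => by rw [hD]
  rw [hDs]
  have h2p : ∀ y : ℝ, 0 ≤ y → y / (2 * p) ≤ 2 * y := by
    intro y hy
    rw [div_le_iff₀ (by positivity)]
    nlinarith
  -- the form of the conclusion
  have fin : ∀ K : ℝ, volume {z | z ∈ Om n ∧ s ≤ (L z).re} ≤ ENNReal.ofReal (K / n) →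
      K * Real.exp (D s) ≤ (7 + 4 * C2) * Real.exp (2 * C1 + 23) →
      volume {z | z ∈ Om n ∧ s ≤ (L z).re} ≤
        ENNReal.ofReal ((7 + 4 * C2) * Real.exp (2 * C1 + 23) / n * Real.exp (-D s)) := by
    intro K h1 h2
    refine h1.trans (ENNReal.ofReal_le_ofReal ?_)
    have h3 : K ≤ (7 + 4 * C2) * Real.exp (2 * C1 + 23) * Real.exp (-D s) := by
      rw [Real.exp_neg, ← div_eq_mul_inv, le_div_iff₀ (Real.exp_pos _)]
      exact h2
    have h4 := div_le_div_of_nonneg_right h3 hn0.le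
    refine h4.trans (le_of_eq ?_)
    ring
  have vol : volume {z | z ∈ Om n ∧ s ≤ (L z).re} ≤ ENNReal.ofReal (2 * Real.pi / n) :=
    (measure_mono fun z hz => hz.1).trans (vol_Om hn)
  -- the trivial cases
  have triv : D s ≤ 2 * C1 + 23 → volume {z | z ∈ Om n ∧ s ≤ (L z).re} ≤
        ENNReal.ofReal ((7 + 4 * C2) * Real.exp (2 * C1 + 23) / n * Real.exp (-D s)) := by
    intro h
    refine fin (2 * Real.pi) vol ?_
    have h1 := Real.exp_le_exp.2 h
    exact mul_le_mul (by linarith) h1 (Real.exp_pos _).le (by linarith)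
  by_cases hs9 : s ≤ 9
  · refine triv ?_
    have h1 := bE_le hp0 hp1 hL (r := r) (s := 0) (t := s) le_rfl hs
    rw [bE_zero] at h1
    have h2 := bE_nonneg L r s
    have h3 := h2p (s + bE L r s / 200) (by linarith)
    rw [hDs] at h3
    nlinarith
  · have hs9 : 9 < s := not_le.1 hs9
    have hs' : 0 ≤ s - 9 := by linarith
    -- comparison of the levels `s` and `s - 9`
    have hD9 : D s ≤ D (s - 9) + 19 := by
      have h1 := bE_le hp0 hp1 hL (r := r) (s := s - 9) (t := s) hs' (by linarith)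
      have h2 : D s - D (s - 9) = (9 + (bE L r s - bE L r (s - 9)) / 200) / (2 * p) := by
        rw [hD]
        ring
      by_cases h4 : 0 ≤ 9 + (bE L r s - bE L r (s - 9)) / 200
      · have h3 := h2p _ h4
        nlinarith
      · have h3 : (9 + (bE L r s - bE L r (s - 9)) / 200) / (2 * p) ≤ 0 :=
          div_nonpos_of_nonpos_of_nonneg (not_le.1 h4).le (by positivity)
        linarith
    obtain ⟨x, hx⟩ : ∃ x : ℝ, x = 2 * Real.exp (-D (s - 9) + C1 / (2 * p)) := ⟨_, rfl⟩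
    have hx0 : 0 < x := by rw [hx]; positivity
    have close : ∀ z : ℂ, ‖z‖ < r → s - 9 ≤ (L z).re → r - ‖z‖ ≤ x := by
      intro z hz h
      refine ds_close hp0 hx hr1 (norm_nonneg z) hz ?_
      have h1 := H1 p hp0 hp1 L hL hL0 r (by linarith) hr1 z hz (s - 9) hs' h
      rw [← hDs, div_mul_cancel₀ _ (by positivity)]
      exact h1
    have hC1p : C1 / (2 * p) ≤ 2 * C1 := h2p C1 hC1.le
    by_cases hx16 : 1 / 16 ≤ x
    · refine triv ?_
      have h1 : (1 / 32 : ℝ) ≤ Real.exp (-D (s - 9) + C1 / (2 * p)) := by linarith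
      have h2 : Real.exp (-4) ≤ Real.exp (-D (s - 9) + C1 / (2 * p)) := by
        refine le_trans ?_ h1
        rw [Real.exp_neg, inv_le_comm₀ (Real.exp_pos _) (by norm_num)]
        have h3 : (2.7 : ℝ) ≤ Real.exp 1 := by linarith [Real.exp_one_gt_d9]
        have h4 : Real.exp 4 = Real.exp 1 ^ 4 := by
          rw [← Real.exp_nat_mul]
          norm_num
        rw [h4]
        have h5 := pow_le_pow_left₀ (by norm_num) h3 4
        norm_num at h5 ⊢
        linarith
      have h6 := Real.exp_le_exp.1 h2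
      linarith
    · have hx16 : x < 1 / 16 := not_le.1 hx16
      have ang := vol_ang hp1 hL hn s
      -- the bound of the set of the angles
      have hE : volume {θ : ℝ | θ ∈ Ioo (-Real.pi) Real.pi ∧
          s - 8 ≤ (L ((1 - 3 / (n : ℝ) : ℝ) * Complex.exp (θ * Complex.I))).re} ≤
          ENNReal.ofReal (C2 * (2 * x)) := by
        by_cases hc : r - 2 * x < 1 - 3 / (n : ℝ)
        · have h1 := H2 p hp0 hp1 L hL (1 - 3 / (n : ℝ)) (1 - 3 / (n : ℝ) - (r - 2 * x)) (s - 9)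
            (by linarith) (by linarith) (by rw [e3]; linarith) (by
              intro z hz
              have hz' : ‖z‖ = r - 2 * x := by rw [hz]; ring
              by_contra h
              have h2 := close z (by rw [hz']; linarith) (not_le.1 h).le
              rw [hz'] at h2
              linarith)
          have e : s - 9 + 1 = s - 8 := by ring
          rw [e] at h1
          refine h1.trans (ENNReal.ofReal_le_ofReal (mul_le_mul_of_nonneg_left ?_ hC2.le))
          rw [hr, e2, e3]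
          linarith
        · have h1 : {θ : ℝ | θ ∈ Ioo (-Real.pi) Real.pi ∧
              s - 8 ≤ (L ((1 - 3 / (n : ℝ) : ℝ) * Complex.exp (θ * Complex.I))).re} = ∅ := by
            rw [Set.eq_empty_iff_forall_notMem]
            rintro θ ⟨-, h⟩
            have hn' : ‖(((1 - 3 / (n : ℝ) : ℝ) : ℂ) * Complex.exp (θ * Complex.I))‖ =
                1 - 3 / (n : ℝ) := by
              rw [norm_mul, Complex.norm_exp_ofReal_mul_I, mul_one, Complex.norm_real,
                Real.norm_of_nonneg (by rw [e3]; linarith)]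
            have h2 := close _ (by rw [hn', hr, e2, e3]; linarith) (by linarith)
            rw [hn'] at h2
            linarith [not_lt.1 hc]
          rw [h1, measure_empty]
          exact bot_le
      refine fin (C2 * (2 * x)) ?_ ?_
      · refine ang.trans ((mul_le_mul_right hE _).trans (le_of_eq ?_))
        rw [← ENNReal.ofReal_mul hi0.le]
        congr 1
        ring
      · have h1 : Real.exp (-D (s - 9) + C1 / (2 * p)) * Real.exp (D s) ≤
            Real.exp (2 * C1 + 23) := by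
          rw [← Real.exp_add]
          refine Real.exp_le_exp.2 ?_
          linarith
        have h2 : C2 * (2 * x) * Real.exp (D s) =
            4 * C2 * (Real.exp (-D (s - 9) + C1 / (2 * p)) * Real.exp (D s)) := by
          rw [hx]
          ring
        rw [h2]
        refine (mul_le_mul_of_nonneg_left h1 (by positivity)).trans ?_
        refine mul_le_mul_of_nonneg_right ?_ (Real.exp_pos _).le
        linarith

end KQU
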