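import Pool.Agent.KQU.Defs
import Pool.Agent.MQV.Grw
import Pool.Agent.MQV.Brx

set_option autoImplicit false

/-!
# KQU GA : growth with the energy of an outer annulus (uniform in `p ≤ 1`)

Copy of `MQV.grow_core` (read `Pool/Agent/MQV/Grw.lean`), with `F ζ = f (v r th ζ)`.
* `MV Str p F` (`MV.comp` / as in `growth_disc`: `hf.rot`, `toStr`, and `z ↦ r z` is injective from
  the disc to the disc), and `MV Str 1 F` because `p ≤ 1`; `end_left` (`p := 1`, `X = 1`,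
  `a = 1`), `end_right` (`p := 1`) give absolute `C1`, `C2`.
* ENERGY: with `φ ζ = v r th ζ` (injective, analytic, image = `{|z| < r}`),
  `∫_Str |dv F 1 b|² = ∫_{|z|<r} |dv f 1 b|²` (as `Brx.energy_eq`), and `lay_energy` on `ball 0 1`
  (`a = 1`) is `∫_{|z|<1} |dv f 1 b|² ≤ 2πp log b + 2πp`, so
  `∫_Str |dv F 1 b|² ≤ E := 2πp log b + 2πp - B'`, `B' = ∫_{r ≤ |z| < 1} |dv f 1 b|²`.
* `strip_deficit` (`x₀ = 0`, `a = 1`), FIRST conclusion:
  `0 ≤ E - 4p (π log b - C1 - C2) + 4p²π T`, so `2πp log b + B' ≤ 4πp² T + 2πp + 4p (C1 + C2)`;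
  divide by `2πp` and use `B'/(2πp) ≥ B'/(2π)`.
-/

open MeasureTheory Metric Set

namespace KQU

/-- energy of `F ζ = f (v (r th ζ))` over the strip -/
private theorem energy_le {f : ℂ → ℂ} (hf : DifferentiableOn ℂ f (ball 0 1)) {v : ℂ}
    (hv : ‖v‖ = 1) {r : ℝ} (hr0 : 0 < r) (hr1 : r < 1) (a b : ℝ) :
    ∫⁻ ζ in MQV.Str, ENNReal.ofReal (‖MQV.dv (fun ζ => f (v * (r * MQV.th ζ))) a b ζ‖ ^ 2) ≤
      ∫⁻ w in {z : ℂ | ‖z‖ < r}, ENNReal.ofReal (‖MQV.dv f a b w‖ ^ 2) := by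
  have hv0 : v ≠ 0 := by
    rintro rfl
    rw [norm_zero] at hv
    exact zero_ne_one hv
  have hrC : (r : ℂ) ≠ 0 := by exact_mod_cast hr0.ne'
  have hd : ∀ ζ ∈ MQV.Str, HasDerivAt (fun ζ => v * (r * MQV.th ζ))
      (v * (r * (2 * Complex.exp ζ / (Complex.exp ζ + 1) ^ 2))) ζ := fun ζ hζ =>
    ((MQV.hasDerivAt_th hζ).const_mul (r : ℂ)).const_mul v
  have hinj : InjOn (fun ζ => v * (r * MQV.th ζ)) MQV.Str := by
    intro x hx y hy hxy
    exact MQV.th_injOn hx hy (mul_left_cancel₀ hrC (mul_left_cancel₀ hv0 hxy))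
  have hnorm : ∀ ζ ∈ MQV.Str, ‖v * (r * MQV.th ζ)‖ < r := by
    intro ζ hζ
    have h1 := mem_ball_zero_iff.1 (MQV.th_mapsTo hζ)
    rw [norm_mul, norm_mul, hv, one_mul, Complex.norm_real, Real.norm_of_nonneg hr0.le]
    calc r * ‖MQV.th ζ‖ < r * 1 := mul_lt_mul_of_pos_left h1 hr0
      _ = r := mul_one r
  have hder : ∀ z ∈ MQV.Str, HasFDerivWithinAt (fun ζ => v * (r * MQV.th ζ))
      ((v * (r * (2 * Complex.exp z / (Complex.exp z + 1) ^ 2))) • (1 : ℂ →L[ℝ] ℂ))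
        MQV.Str z := fun z hz =>
    (hd z hz).complexToReal_fderiv.hasFDerivWithinAt
  have himg : (fun ζ => v * (r * MQV.th ζ)) '' MQV.Str ⊆ {z : ℂ | ‖z‖ < r} := by
    rintro _ ⟨ζ, hζ, rfl⟩
    exact hnorm ζ hζ
  refine le_trans (le_of_eq ?_) (lintegral_mono_set himg)
  rw [lintegral_image_eq_lintegral_abs_det_fderiv_mul (volume : Measure ℂ)
    MQV.isOpen_Str.measurableSet hder hinj]
  refine setLIntegral_congr_fun MQV.isOpen_Str.measurableSet fun ζ hζ => ?_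
  have hm : v * (r * MQV.th ζ) ∈ ball (0 : ℂ) 1 := by
    rw [mem_ball_zero_iff]
    exact (hnorm ζ hζ).trans hr1
  have h1 : MQV.dv (fun ζ => f (v * (r * MQV.th ζ))) a b ζ =
      MQV.dv f a b (v * (r * MQV.th ζ)) *
      (v * (r * (2 * Complex.exp ζ / (Complex.exp ζ + 1) ^ 2))) := by
    rw [← (hd ζ hζ).deriv]
    exact MQV.dv_comp (f := f) (φ := fun ζ => v * (r * MQV.th ζ))
      (hf.differentiableAt (isOpen_ball.mem_nhds hm)) (hd ζ hζ).differentiableAt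
  change ENNReal.ofReal (‖MQV.dv (fun ζ => f (v * (r * MQV.th ζ))) a b ζ‖ ^ 2) = _
  rw [h1, MQV.Brx.det_smul, abs_of_nonneg (sq_nonneg _), ← ENNReal.ofReal_mul (sq_nonneg _)]
  congr 1
  rw [norm_mul _ (v * (r * (2 * Complex.exp ζ / (Complex.exp ζ + 1) ^ 2))), mul_pow]
  ring

theorem grow_ann : ∃ C : ℝ, 0 < C ∧ ∀ p : ℝ, 0 < p → p ≤ 1 → ∀ f : ℂ → ℂ,
    MQV.MV (ball 0 1) p f → (∀ z : ℂ, ‖z‖ ≤ 1 / 2 → ‖f z‖ ≤ 1) → ∀ r : ℝ, 0 < r → r < 1 →
    ∀ v : ℂ, ‖v‖ = 1 → ∀ T b : ℝ, 1 ≤ T → 2 ≤ b →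
      (∀ ζ ∈ MQV.Bz T, ‖f (v * (r * MQV.th ζ))‖ ≤ b) →
      (∃ ζ ∈ MQV.Bz T, b ≤ ‖f (v * (r * MQV.th ζ))‖) →
      Real.log b + (∫⁻ z in {z | z ∈ ball (0 : ℂ) 1 ∧ r ≤ ‖z‖},
        ENNReal.ofReal (‖MQV.dv f 1 b z‖ ^ 2)).toReal / (2 * Real.pi) ≤ 2 * p * T + C := by
  obtain ⟨C1, hC1, H1⟩ := MQV.end_left one_pos (X := 1) one_pos
  obtain ⟨C2, hC2, H2⟩ := MQV.end_right one_pos
  have hpi := Real.pi_pos
  refine ⟨1 + 2 * (C1 + C2) / Real.pi, by positivity,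
    fun p hp hp1 f hf h0 r hr0 hr1 v hv T b hT hb hT1 hT2 => ?_⟩
  have hrC : (r : ℂ) ≠ 0 := by exact_mod_cast hr0.ne'
  have hv0 : v ≠ 0 := by
    rintro rfl
    rw [norm_zero] at hv
    exact zero_ne_one hv
  have hnorm : ∀ ζ ∈ MQV.Str, ‖v * (r * MQV.th ζ)‖ < 1 := by
    intro ζ hζ
    have h1 := mem_ball_zero_iff.1 (MQV.th_mapsTo hζ)
    rw [norm_mul, norm_mul, hv, one_mul, Complex.norm_real, Real.norm_of_nonneg hr0.le]
    calc r * ‖MQV.th ζ‖ ≤ 1 * ‖MQV.th ζ‖ := by gcongr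
      _ < 1 := by rw [one_mul]; exact h1
  set F : ℂ → ℂ := fun ζ => f (v * (r * MQV.th ζ)) with hFd
  have hF : MQV.MV MQV.Str p F := by
    refine MQV.MV.comp (φ := fun ζ => v * (r * MQV.th ζ)) MQV.isOpen_Str isOpen_ball hf
      ((MQV.th_diff.const_mul (r : ℂ)).const_mul v) ?_ ?_
    · intro ζ hζ
      rw [mem_ball_zero_iff]
      exact hnorm ζ hζ
    · intro x hx y hy hxy
      exact MQV.th_injOn hx hy (mul_left_cancel₀ hrC (mul_left_cancel₀ hv0 hxy))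
  have hF1 : MQV.MV MQV.Str 1 F := ⟨hF.diff, fun R hR => (hF.area R hR).trans
    (ENNReal.ofReal_le_ofReal (by
      have h2 : Real.pi * p ≤ Real.pi * 1 := mul_le_mul_of_nonneg_left hp1 hpi.le
      exact mul_le_mul_of_nonneg_right h2 (sq_nonneg R)))⟩
  have hB0 : ∀ ζ ∈ MQV.Bz 0, ‖F ζ‖ ≤ 1 := by
    intro ζ hζ
    refine h0 _ ?_
    have h1 := hζ.2
    rw [Complex.ofReal_zero, sub_zero] at h1
    rw [norm_mul, norm_mul, hv, one_mul, Complex.norm_real, Real.norm_of_nonneg hr0.le]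
    calc r * ‖MQV.th ζ‖ ≤ 1 * ‖MQV.th ζ‖ := by gcongr
      _ ≤ 1 / 2 := by rw [one_mul]; exact h1
  have hlog : 0 ≤ Real.log b := Real.log_nonneg (by linarith)
  have e1 : ∫⁻ ζ in {ζ | ζ ∈ MQV.Str ∧ (0 : ℝ) < ζ.re ∧ ζ.re < 0 + 1},
      ENNReal.ofReal (MQV.lv F 1 b ζ - Real.log 1) ≤ ENNReal.ofReal C1 := by
    rw [zero_add]
    exact H1 F hF1 1 b one_pos (by linarith) hB0
  have e2 : ∫⁻ ζ in {ζ | ζ ∈ MQV.Str ∧ T < ζ.re ∧ ζ.re < T + 1},
      ENNReal.ofReal (Real.log b - MQV.lv F 1 b ζ) ≤ ENNReal.ofReal C2 :=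
    H2 F hF1 T 1 b b one_pos (by linarith) le_rfl hT1 hT2
  -- the energies
  have e3 := MQV.lay_energy isOpen_ball hp.le one_pos (a := 1) (b := b) (by linarith) hf
  rw [div_one] at e3
  set A : Set ℂ := {z | z ∈ ball (0 : ℂ) 1 ∧ r ≤ ‖z‖} with hA
  have hAm : MeasurableSet A :=
    measurableSet_ball.inter (isClosed_le continuous_const continuous_norm).measurableSet
  have hdisj : Disjoint {z : ℂ | ‖z‖ < r} A := by
    rw [Set.disjoint_left]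
    intro z hz hz2
    exact absurd hz (not_lt.2 hz2.2)
  have hunion : {z : ℂ | ‖z‖ < r} ∪ A ⊆ ball (0 : ℂ) 1 := by
    rintro z (hz | hz)
    · rw [mem_ball_zero_iff]
      exact lt_trans hz hr1
    · exact hz.1
  have e5 : (∫⁻ w in {z : ℂ | ‖z‖ < r}, ENNReal.ofReal (‖MQV.dv f 1 b w‖ ^ 2)) +
      (∫⁻ z in A, ENNReal.ofReal (‖MQV.dv f 1 b z‖ ^ 2)) ≤
      ENNReal.ofReal (2 * Real.pi * p * Real.log b + 2 * Real.pi * p) := by
    rw [← lintegral_union hAm hdisj]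
    exact (lintegral_mono_set hunion).trans e3
  set I := ∫⁻ z in A, ENNReal.ofReal (‖MQV.dv f 1 b z‖ ^ 2) with hI
  have hIle : I ≤ ENNReal.ofReal (2 * Real.pi * p * Real.log b + 2 * Real.pi * p) :=
    le_trans le_add_self e5
  have hIfin : I ≠ ⊤ := ne_top_of_le_ne_top ENNReal.ofReal_ne_top hIle
  have hB'0 : 0 ≤ I.toReal := ENNReal.toReal_nonneg
  have hI2 : I = ENNReal.ofReal I.toReal := (ENNReal.ofReal_toReal hIfin).symm
  have hpos : 0 ≤ 2 * Real.pi * p * Real.log b + 2 * Real.pi * p := by positivity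
  have hE0 : 0 ≤ 2 * Real.pi * p * Real.log b + 2 * Real.pi * p - I.toReal := by
    have := ENNReal.toReal_mono ENNReal.ofReal_ne_top hIle
    rw [ENNReal.toReal_ofReal hpos] at this
    linarith
  have e6 : ∫⁻ ζ in MQV.Str, ENNReal.ofReal (‖MQV.dv F 1 b ζ‖ ^ 2) ≤
      ENNReal.ofReal (2 * Real.pi * p * Real.log b + 2 * Real.pi * p - I.toReal) := by
    refine (energy_le hf.diff hv hr0 hr1 1 b).trans ?_
    rw [ENNReal.ofReal_sub _ hB'0, ← hI2]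
    exact ENNReal.le_sub_of_add_le_right hIfin e5
  have e4 := (MQV.strip_deficit hF.diff hp one_pos (b := b) (by linarith) (x₀ := 0) (T := T)
    (by linarith) hC1.le hC2.le hE0 e1 e2 e6).1
  rw [div_one, sub_zero] at e4
  -- divide
  have h5 : 2 * Real.pi * p * (Real.log b + I.toReal / (2 * Real.pi * p)) ≤
      2 * Real.pi * p * (2 * p * T + (1 + 2 * (C1 + C2) / Real.pi)) := by
    have h6 : 2 * Real.pi * p * (Real.log b + I.toReal / (2 * Real.pi * p)) =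
        2 * Real.pi * p * Real.log b + I.toReal := by
      field_simp
    have h7 : 2 * Real.pi * p * (2 * p * T + (1 + 2 * (C1 + C2) / Real.pi)) =
        4 * p ^ 2 * Real.pi * T + 2 * Real.pi * p + 4 * p * (C1 + C2) := by
      field_simp
      ring
    rw [h6, h7]
    linarith
  have h8 := le_of_mul_le_mul_left h5 (by positivity)
  have h9 : I.toReal / (2 * Real.pi) ≤ I.toReal / (2 * Real.pi * p) := by
    refine div_le_div_of_nonneg_left hB'0 (by positivity) ?_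
    calc 2 * Real.pi * p ≤ 2 * Real.pi * 1 := by gcongr
      _ = 2 * Real.pi := mul_one _
  linarith

end KQU
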