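import Pool.Agent.KQU.Bas
import Pool.Agent.KQU.Ga
import Pool.Agent.MPV.Gro

set_option autoImplicit false

/-!
# KQU GS : the refined growth theorem in terms of `L`

`|f| ≤ 9` on `|z| ≤ 1/2`, `f = exp ∘ L`; `f₀ = f / 9 = exp ∘ (L - log 9)`, `x = |z|/r`,
`T = log ((1+x)/(1-x))`, `b = max |f₀ (v r th ζ)|` over `Bz T`; `grow_ann` and `dv_lower`.
-/

open MeasureTheory Metric Set MPV

namespace KQU

theorem grow_star : ∃ C : ℝ, 0 < C ∧ ∀ p : ℝ, 0 < p → p ≤ 1 → ∀ L : ℂ → ℂ, Cls p L →
    (L 0).re = 0 → ∀ r : ℝ, 0 < r → r < 1 → ∀ z : ℂ, ‖z‖ < r → ∀ s : ℝ, 0 ≤ s →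
      s ≤ (L z).re →
      s + bE L r s / 200 ≤ 2 * p * Real.log ((r + ‖z‖) / (r - ‖z‖)) + C := by
  obtain ⟨C0, hC0, H⟩ := grow_ann
  have hpi := Real.pi_pos
  have hpi4 := Real.pi_lt_four
  have hl9 : 0 < Real.log 9 := Real.log_pos (by norm_num)
  have hl18 : 0 < Real.log 18 := Real.log_pos (by norm_num)
  have hl9_18 : Real.log 9 < Real.log 18 := Real.log_lt_log (by norm_num) (by norm_num)
  refine ⟨Real.log 18 + Real.pi * (2 * Real.log 18 + 3) / 200 + C0, by positivity, ?_⟩
  intro p hp hp1 L hL hL0 r hr hr1 z hz s hs hsz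
  have hz0 := norm_nonneg z
  have hz1 : ‖z‖ < 1 := hz.trans hr1
  have hzb : z ∈ ball (0 : ℂ) 1 := by rwa [mem_ball_zero_iff]
  have hrz : 0 < r - ‖z‖ := by linarith
  have hq1 : 1 ≤ (r + ‖z‖) / (r - ‖z‖) := by
    rw [le_div_iff₀ hrz]
    linarith
  set T : ℝ := Real.log ((r + ‖z‖) / (r - ‖z‖)) with hT
  have hT0 : 0 ≤ T := Real.log_nonneg hq1
  have hpT : 0 ≤ 2 * p * T := by positivity
  by_cases hs18 : s ≤ Real.log 18
  · have h1 := bE_le hp hp1 hL (r := r) (s := 0) (t := s) le_rfl hs
    rw [bE_zero, zero_add, sub_zero] at h1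
    have h2 : Real.pi * (2 * s + 3) ≤ Real.pi * (2 * Real.log 18 + 3) := by
      apply mul_le_mul_of_nonneg_left _ hpi.le
      linarith
    have h3 : bE L r s / 200 ≤ Real.pi * (2 * Real.log 18 + 3) / 200 := by linarith
    linarith
  · rw [not_le] at hs18
    -- the normalised function
    set L₀ : ℂ → ℂ := fun w => L w - (Real.log 9 : ℝ) with hL₀
    have hn0 : ∀ w, ‖Complex.exp (L₀ w)‖ = Real.exp ((L w).re - Real.log 9) := by
      intro w
      rw [Complex.norm_exp, hL₀]
      simp only [Complex.sub_re, Complex.ofReal_re]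
    have hf0 : (fun w => Complex.exp (L₀ w)) = fun w => (9 : ℂ)⁻¹ * Complex.exp (L w) := by
      funext w
      rw [hL₀]
      simp only
      rw [Complex.exp_sub, ← Complex.ofReal_exp, Real.exp_log (by norm_num), div_eq_inv_mul]
      norm_num
    have hMV : MQV.MV (ball 0 1) p (fun w => Complex.exp (L₀ w)) := by
      rw [hf0]
      exact (toMV hL).const_mul isOpen_ball hp.le _
    have hsmall : ∀ w : ℂ, ‖w‖ ≤ 1 / 2 → ‖Complex.exp (L₀ w)‖ ≤ 1 := by
      intro w hw
      have hwb : w ∈ ball (0 : ℂ) 1 := by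
        rw [mem_ball_zero_iff]
        linarith
      have h1 := (cls_mono hp1 hL).growth (by norm_num) hwb
      rw [hL0, sub_zero] at h1
      have h2 := (le_abs_self _).trans h1
      have hw0 := norm_nonneg w
      have h3 : (1 + ‖w‖) / (1 - ‖w‖) ≤ 3 := by
        rw [div_le_iff₀ (by linarith)]
        linarith
      have h4 : Real.log ((1 + ‖w‖) / (1 - ‖w‖)) ≤ Real.log 3 :=
        Real.log_le_log (div_pos (by linarith) (by linarith)) h3
      have h5 : Real.log 9 = 2 * Real.log 3 := by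
        rw [show (9 : ℝ) = 3 ^ 2 by norm_num, Real.log_pow]
        norm_num
      rw [hn0, Real.exp_le_one_iff]
      linarith
    -- `z` is not small
    have hbig : 2 < ‖Complex.exp (L₀ z)‖ := by
      rw [hn0]
      have h1 : Real.log 18 - Real.log 9 = Real.log 2 := by
        rw [← Real.log_div (by norm_num) (by norm_num)]
        norm_num
      have h2 : Real.log 2 < (L z).re - Real.log 9 := by linarith
      calc (2 : ℝ) = Real.exp (Real.log 2) := (Real.exp_log (by norm_num)).symm
        _ < _ := Real.exp_lt_exp.2 h2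
    have hz2 : 1 / 2 < ‖z‖ := by
      by_contra h
      have := hsmall z (not_lt.1 h)
      linarith
    have hzne : ‖z‖ ≠ 0 := by linarith
    set x : ℝ := ‖z‖ / r with hx
    have hx0 : 0 ≤ x := by positivity
    have hx1 : x < 1 := by
      rw [hx, div_lt_one hr]
      exact hz
    have hxz : ‖z‖ ≤ x := by
      rw [hx, le_div_iff₀ hr]
      nlinarith
    have hTx : T = Real.log ((1 + x) / (1 - x)) := by
      rw [hT, hx]
      congr 1
      field_simp
    have hT1 : 1 ≤ T := by
      rw [hTx, Real.le_log_iff_exp_le (div_pos (by linarith) (by linarith))]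
      rw [le_div_iff₀ (by linarith)]
      have h3 := Real.exp_one_lt_d9
      nlinarith
    set v : ℂ := z / (‖z‖ : ℝ) with hv
    have hzC : ((‖z‖ : ℝ) : ℂ) ≠ 0 := by exact_mod_cast hzne
    have hvn : ‖v‖ = 1 := by
      rw [hv, norm_div, Complex.norm_real, Real.norm_of_nonneg hz0, div_self hzne]
    have hrx : r * x = ‖z‖ := by
      rw [hx]
      field_simp
    have hvz : v * ((r : ℂ) * MQV.th ((T : ℝ) : ℂ)) = z := by
      rw [hTx, MQV.th_log hx0 hx1, ← Complex.ofReal_mul, hrx]
      exact div_mul_cancel₀ _ hzC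
    have hmaps : MapsTo (fun ζ => v * ((r : ℂ) * MQV.th ζ)) MQV.Str (ball 0 1) := by
      intro ζ hζ
      have h1 := MQV.th_mapsTo hζ
      rw [mem_ball_zero_iff] at h1 ⊢
      rw [norm_mul, norm_mul, hvn, one_mul, Complex.norm_real, Real.norm_of_nonneg hr.le]
      have := norm_nonneg (MQV.th ζ)
      nlinarith
    have hcont : ContinuousOn (fun ζ => ‖Complex.exp (L₀ (v * ((r : ℂ) * MQV.th ζ)))‖)
        (MQV.Bz T) := by
      have h1 : ContinuousOn (fun ζ => v * ((r : ℂ) * MQV.th ζ)) MQV.Str :=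
        continuousOn_const.mul (continuousOn_const.mul MQV.th_diff.continuousOn)
      have h2 : ContinuousOn (fun ζ => Complex.exp (L₀ (v * ((r : ℂ) * MQV.th ζ)))) MQV.Str :=
        hMV.diff.continuousOn.comp h1 hmaps
      exact (h2.mono fun ζ hζ => hζ.1).norm
    obtain ⟨ζ1, hζ1, hmax⟩ := (MQV.isCompact_Bz T).exists_isMaxOn ⟨_, MQV.real_mem_Bz T⟩ hcont
    have hmax' : ∀ ζ ∈ MQV.Bz T, ‖Complex.exp (L₀ (v * ((r : ℂ) * MQV.th ζ)))‖ ≤
        ‖Complex.exp (L₀ (v * ((r : ℂ) * MQV.th ζ1)))‖ := fun ζ hζ => hmax hζ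
    set b : ℝ := ‖Complex.exp (L₀ (v * ((r : ℂ) * MQV.th ζ1)))‖ with hb
    have hzb2 : ‖Complex.exp (L₀ z)‖ ≤ b := by
      have h1 := hmax' _ (MQV.real_mem_Bz T)
      rwa [hvz] at h1
    have hb2 : 2 ≤ b := by linarith
    have hsb : s ≤ Real.log 9 + Real.log b := by
      have h1 : Real.exp (s - Real.log 9) ≤ b := by
        refine le_trans ?_ hzb2
        rw [hn0]
        exact Real.exp_le_exp.2 (by linarith)
      have h2 := (Real.le_log_iff_exp_le (by linarith)).2 h1
      linarith
    have hG := H p hp hp1 (fun w => Complex.exp (L₀ w)) hMV hsmall r hr hr1 v hvn T b hT1 hb2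
      hmax' ⟨ζ1, hζ1, le_rfl⟩
    set I : ENNReal := ∫⁻ w in {w | w ∈ ball (0 : ℂ) 1 ∧ r ≤ ‖w‖},
        ENNReal.ofReal (‖MQV.dv (fun w => Complex.exp (L₀ w)) 1 b w‖ ^ 2) with hI
    have hIfin : I ≠ ⊤ := by
      have h1 := MQV.lay_energy isOpen_ball hp.le one_pos (a := 1) (b := b) (by linarith) hMV
      refine ne_top_of_le_ne_top ENNReal.ofReal_ne_top (le_trans ?_ h1)
      rw [hI]
      exact lintegral_mono_set (fun w hw => hw.1)
    -- the lower bound
    have hlow : ENNReal.ofReal (9 / 256) * en L r (Real.log 9) (Real.log 9 + Real.log b) ≤ I := by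
      unfold en
      have hLc : ContinuousOn L (ball 0 1) := hL.diff.continuousOn
      have hmeas : MeasurableSet {w | w ∈ ball (0 : ℂ) 1 ∧ r ≤ ‖w‖ ∧ Real.log 9 ≤ (L w).re ∧
          (L w).re < Real.log 9 + Real.log b} := by
        have h1 : Measurable (fun y : ball (0 : ℂ) 1 => (L y).re) :=
          (Complex.continuous_re.comp (continuousOn_iff_continuous_domRestrict.1 hLc)).measurable
        have h2 : MeasurableSet {y : ball (0 : ℂ) 1 | r ≤ ‖(y : ℂ)‖ ∧ Real.log 9 ≤ (L y).re ∧
            (L y).re < Real.log 9 + Real.log b} :=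
          (measurableSet_le measurable_const measurable_subtype_coe.norm).inter
            ((measurableSet_le measurable_const h1).inter (measurableSet_lt h1 measurable_const))
        have h3 := MeasurableSet.subtype_image (measurableSet_ball (x := (0 : ℂ)) (ε := 1)) h2
        convert h3 using 1
        ext w
        constructor
        · rintro ⟨ha, hb'⟩
          exact ⟨⟨w, ha⟩, hb', rfl⟩
        · rintro ⟨y, hy, rfl⟩
          exact ⟨y.2, hy⟩
      rw [← lintegral_const_mul' _ _ ENNReal.ofReal_ne_top]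
      calc ∫⁻ w in {w | w ∈ ball (0 : ℂ) 1 ∧ r ≤ ‖w‖ ∧ Real.log 9 ≤ (L w).re ∧
          (L w).re < Real.log 9 + Real.log b}, ENNReal.ofReal (9 / 256) *
            ENNReal.ofReal (‖deriv L w‖ ^ 2)
          ≤ ∫⁻ w in {w | w ∈ ball (0 : ℂ) 1 ∧ r ≤ ‖w‖ ∧ Real.log 9 ≤ (L w).re ∧
          (L w).re < Real.log 9 + Real.log b},
            ENNReal.ofReal (‖MQV.dv (fun w => Complex.exp (L₀ w)) 1 b w‖ ^ 2) := by
            apply setLIntegral_mono' hmeas
            intro w hw
            rw [← ENNReal.ofReal_mul (by norm_num)]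
            apply ENNReal.ofReal_le_ofReal
            have hd : DifferentiableAt ℂ L w := hL.diff.differentiableAt (isOpen_ball.mem_nhds hw.1)
            have hd0 : DifferentiableAt ℂ L₀ w := hd.sub_const _
            have hder : deriv L₀ w = deriv L w := deriv_sub_const _
            have h1 : 1 ≤ ‖Complex.exp (L₀ w)‖ := by
              rw [hn0, Real.one_le_exp_iff]
              linarith [hw.2.2.1]
            have h2 : ‖Complex.exp (L₀ w)‖ ≤ b := by
              rw [hn0]
              have h3 : (L w).re - Real.log 9 ≤ Real.log b := by linarith [hw.2.2.2]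
              calc Real.exp ((L w).re - Real.log 9) ≤ Real.exp (Real.log b) :=
                    Real.exp_le_exp.2 h3
                _ = b := Real.exp_log (by linarith)
            have h4 := dv_lower hd0 hb2 h1 h2
            rw [hder] at h4
            have h5 := pow_le_pow_left₀ (by positivity) h4 2
            calc 9 / 256 * ‖deriv L w‖ ^ 2 = (3 / 16 * ‖deriv L w‖) ^ 2 := by ring
              _ ≤ _ := h5
        _ ≤ I := by
            rw [hI]
            exact lintegral_mono_set (fun w hw => ⟨hw.1, hw.2.1⟩)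
    have hlow' : 9 / 256 * (en L r (Real.log 9) (Real.log 9 + Real.log b)).toReal ≤ I.toReal := by
      have h1 := ENNReal.toReal_mono hIfin hlow
      rwa [ENNReal.toReal_mul, ENNReal.toReal_ofReal (by norm_num)] at h1
    have hlb : 0 ≤ Real.log b := Real.log_nonneg (by linarith)
    have hstep := bE_step hp hp1 hL (r := r) hl9.le
      (show Real.log 9 ≤ Real.log 9 + Real.log b by linarith)
    have hstep2 := bE_step hp hp1 hL (r := r) hs hsb
    have h9 := bE_le hp hp1 hL (r := r) (s := 0) (t := Real.log 9) le_rfl hl9.le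
    rw [bE_zero, zero_add, sub_zero] at h9
    have hen0 : 0 ≤ (en L r s (Real.log 9 + Real.log b)).toReal := ENNReal.toReal_nonneg
    have hI0 : 0 ≤ I.toReal := ENNReal.toReal_nonneg
    have hbs : bE L r s ≤ Real.pi * (2 * Real.log 9 + 3) + 256 / 9 * I.toReal := by linarith
    have h10 : 256 / 9 * I.toReal / 200 ≤ I.toReal / (2 * Real.pi) := by
      have h11 : (256 / 9 / 200 : ℝ) ≤ 1 / (2 * Real.pi) := by
        rw [le_div_iff₀ (by positivity)]
        have := Real.pi_lt_d2
        nlinarith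
      have h12 := mul_le_mul_of_nonneg_right h11 hI0
      calc 256 / 9 * I.toReal / 200 = (256 / 9 / 200 : ℝ) * I.toReal := by ring
        _ ≤ 1 / (2 * Real.pi) * I.toReal := h12
        _ = _ := by ring
    have h13 : Real.pi * (2 * Real.log 9 + 3) / 200 ≤ Real.pi * (2 * Real.log 18 + 3) / 200 := by
      have := mul_le_mul_of_nonneg_left (show 2 * Real.log 9 + 3 ≤ 2 * Real.log 18 + 3 by linarith)
        hpi.le
      linarith
    linarith

end KQU
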