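import Mathlib

set_option autoImplicit false

/-!
# KQU SR : the real sum

Cauchy-Schwarz: the sum is `≤ (∑_{j<J} e^{2αj})^{1/2} (∑_{j<J} b j e^{-B j/400})^{1/2}`, `α = 1 - 1/(4p)`;
the first sum is geometric (`num_geo`), the second one telescopes (`num_tel`).
-/

open Finset

namespace KQU

/-- telescoping: `∑ b_j exp (-B_j / 400) ≤ 400 exp (K / 400)` -/
private theorem num_tel {K : ℝ} (b : ℕ → ℝ) (h0 : ∀ j, 0 ≤ b j) (hK : ∀ j, b j ≤ K) (J : ℕ) :
    ∑ j ∈ Finset.range J, b j * Real.exp (-(∑ i ∈ Finset.range j, b i) / 400) ≤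
      400 * Real.exp (K / 400) *
        (1 - Real.exp (-(∑ i ∈ Finset.range J, b i) / 400)) := by
  induction J with
  | zero => simp
  | succ J ih =>
    rw [Finset.sum_range_succ, Finset.sum_range_succ (fun i => b i)]
    have h1 : b J * Real.exp (-(∑ i ∈ Finset.range J, b i) / 400) ≤
        400 * Real.exp (K / 400) * (Real.exp (-(∑ i ∈ Finset.range J, b i) / 400) -
          Real.exp (-(∑ i ∈ Finset.range J, b i + b J) / 400)) := by
      have e1 : Real.exp (-(∑ i ∈ Finset.range J, b i + b J) / 400) =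
          Real.exp (-(∑ i ∈ Finset.range J, b i) / 400) * Real.exp (-(b J / 400)) := by
        rw [← Real.exp_add]
        congr 1
        ring
      rw [e1]
      have h2 : b J / 400 ≤ Real.exp (K / 400) * (1 - Real.exp (-(b J / 400))) := by
        have h3 : b J / 400 ≤ Real.exp (b J / 400) * (1 - Real.exp (-(b J / 400))) := by
          rw [mul_sub, mul_one, ← Real.exp_add, add_neg_cancel, Real.exp_zero]
          linarith [Real.add_one_le_exp (b J / 400)]
        refine h3.trans (mul_le_mul_of_nonneg_right (Real.exp_le_exp.2 ?_) ?_)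
        · linarith [hK J]
        · have := Real.exp_le_one_iff.2 (show -(b J / 400) ≤ 0 by linarith [h0 J])
          linarith
      have h4 := mul_le_mul_of_nonneg_left h2
        (Real.exp_pos (-(∑ i ∈ Finset.range J, b i) / 400)).le
      nlinarith [h4]
    linarith

/-- geometric sum -/
private theorem num_geo {α : ℝ} (hα : 0 < α) (J : ℕ) :
    ∑ j ∈ Finset.range J, Real.exp (j * α) ^ 2 ≤ Real.exp (J * α) ^ 2 / (2 * α) := by
  induction J with
  | zero => simp; positivity
  | succ J ih =>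
    rw [Finset.sum_range_succ]
    have e1 : Real.exp (((J + 1 : ℕ) : ℝ) * α) ^ 2 = Real.exp (J * α) ^ 2 * Real.exp (2 * α) := by
      rw [← Real.exp_nat_mul, ← Real.exp_nat_mul, ← Real.exp_add]
      congr 1
      push_cast
      ring
    have h1 : 1 + 2 * α ≤ Real.exp (2 * α) := by linarith [Real.add_one_le_exp (2 * α)]
    have h2 : 0 < Real.exp (J * α) ^ 2 := by positivity
    rw [e1]
    calc ∑ j ∈ Finset.range J, Real.exp (j * α) ^ 2 + Real.exp (J * α) ^ 2
        ≤ Real.exp (J * α) ^ 2 / (2 * α) + Real.exp (J * α) ^ 2 := by linarith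
      _ = Real.exp (J * α) ^ 2 * (1 + 2 * α) / (2 * α) := by
        field_simp
      _ ≤ _ := by gcongr

/-- the numerical sum -/
private theorem num_sum {K α : ℝ} (hα : 0 < α) (b : ℕ → ℝ) (h0 : ∀ j, 0 ≤ b j) (hK : ∀ j, b j ≤ K)
    (J : ℕ) :
    ∑ j ∈ Finset.range J, Real.exp (j * α) *
        (√(b j) * Real.exp (-(∑ i ∈ Finset.range j, b i) / 800)) ≤
      √(200 * Real.exp (K / 400)) / √α * Real.exp (J * α) := by
  have h1 := Finset.sum_mul_sq_le_sq_mul_sq (Finset.range J) (fun j : ℕ => Real.exp (j * α))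
    (fun j => √(b j) * Real.exp (-(∑ i ∈ Finset.range j, b i) / 800))
  have h2 : ∑ j ∈ Finset.range J,
      (√(b j) * Real.exp (-(∑ i ∈ Finset.range j, b i) / 800)) ^ 2 ≤
        400 * Real.exp (K / 400) := by
    have e : ∀ j ∈ Finset.range J,
        (√(b j) * Real.exp (-(∑ i ∈ Finset.range j, b i) / 800)) ^ 2 =
        b j * Real.exp (-(∑ i ∈ Finset.range j, b i) / 400) := by
      intro j _
      rw [mul_pow, Real.sq_sqrt (h0 j), ← Real.exp_nat_mul]
      congr 2
      push_cast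
      ring
    rw [Finset.sum_congr rfl e]
    refine (num_tel b h0 hK J).trans ?_
    have h3 := Real.exp_pos (-(∑ i ∈ Finset.range J, b i) / 400)
    have h4 : 0 < 400 * Real.exp (K / 400) := by positivity
    nlinarith
  have h3 := num_geo hα J
  have h5 : (∑ j ∈ Finset.range J, Real.exp (j * α) *
      (√(b j) * Real.exp (-(∑ i ∈ Finset.range j, b i) / 800))) ^ 2 ≤
      (√(200 * Real.exp (K / 400)) / √α * Real.exp (J * α)) ^ 2 := by
    refine h1.trans ?_
    have h6 : (∑ j ∈ Finset.range J, Real.exp (j * α) ^ 2) *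
        (∑ j ∈ Finset.range J,
          (√(b j) * Real.exp (-(∑ i ∈ Finset.range j, b i) / 800)) ^ 2) ≤
        Real.exp (J * α) ^ 2 / (2 * α) * (400 * Real.exp (K / 400)) :=
      mul_le_mul h3 h2 (Finset.sum_nonneg fun j _ => sq_nonneg _) (by positivity)
    refine h6.trans (le_of_eq ?_)
    rw [mul_pow, div_pow, Real.sq_sqrt (by positivity), Real.sq_sqrt hα.le]
    field_simp
    ring
  exact (pow_le_pow_iff_left₀ (Finset.sum_nonneg fun j _ => by positivity) (by positivity)
    two_ne_zero).1 h5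

theorem sum_real : ∃ C : ℝ, 0 < C ∧ ∀ p : ℝ, 1 / 4 < p → p ≤ 1 → ∀ b : ℕ → ℝ,
    (∀ j, 0 ≤ b j) → (∀ j, b j ≤ 16) → ∀ J : ℕ,
      ∑ j ∈ range J, Real.exp (j * (1 - 1 / (4 * p))) * Real.sqrt (b j) *
        Real.exp (-(∑ i ∈ range j, b i) / (800 * p)) ≤
      C / Real.sqrt (p - 1 / 4) * Real.exp (J * (1 - 1 / (4 * p))) := by
  refine ⟨√(200 * Real.exp (16 / 400)), by positivity, fun p hp hp1 b h0 h16 J => ?_⟩
  have hp0 : 0 < p := by linarith
  have e1 : 1 - 1 / (4 * p) = (p - 1 / 4) / p := by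
    field_simp
  have hα : p - 1 / 4 ≤ 1 - 1 / (4 * p) := by
    rw [e1, le_div_iff₀ hp0]
    nlinarith
  have hα0 : 0 < 1 - 1 / (4 * p) := by linarith
  have h1 := num_sum (K := 16) hα0 b h0 h16 J
  have h2 : ∑ j ∈ range J, Real.exp (j * (1 - 1 / (4 * p))) * Real.sqrt (b j) *
        Real.exp (-(∑ i ∈ range j, b i) / (800 * p)) ≤
      ∑ j ∈ range J, Real.exp (j * (1 - 1 / (4 * p))) *
        (√(b j) * Real.exp (-(∑ i ∈ range j, b i) / 800)) := by
    refine sum_le_sum fun j _ => ?_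
    rw [mul_assoc]
    have h3 : -(∑ i ∈ range j, b i) / (800 * p) ≤ -(∑ i ∈ range j, b i) / 800 := by
      have h4 : 0 ≤ ∑ i ∈ range j, b i := sum_nonneg fun i _ => h0 i
      rw [neg_div, neg_div, neg_le_neg_iff]
      exact div_le_div_of_nonneg_left h4 (by positivity) (by linarith)
    have h5 := Real.exp_le_exp.2 h3
    gcongr
  refine h2.trans (h1.trans ?_)
  have h6 : √(p - 1 / 4) ≤ √(1 - 1 / (4 * p)) := Real.sqrt_le_sqrt hα
  have h7 : 0 < √(p - 1 / 4) := Real.sqrt_pos.2 (by linarith)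
  exact mul_le_mul_of_nonneg_right (div_le_div_of_nonneg_left (by positivity) h7 h6)
    (Real.exp_pos _).le

end KQU
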