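import Pool.Agent.KQU.Ds
import Pool.Agent.KQU.Sr

set_option autoImplicit false

/-!
# KQU SU : `∫_Om |f'|`

`r = 1 - 2/n`, `b j = (en L r j (j+1)).toReal ≤ 5π ≤ 16`, `bE L r j = ∑_{i<j} b i` (`bE_step`),
`J = ⌊2p log n + C⌋₊ + 1`; `Om n = (Om n ∩ {U < 0}) ∪ ⋃_{j<J} (Om n ∩ {j ≤ U < j+1})`
(`top_level`).
* `U < 0`: `∫ e^U |L'| ≤ (∫_{U<0} e^{2U}|L'|²)^{1/2} |Om n|^{1/2} ≤ (π p)^{1/2} (2π/n)^{1/2}`
  (`Cls.area` with `U = 0`; Hölder `ENNReal.lintegral_mul_le_Lp_mul_Lq`), `n^{-1/2} ≤ n^{2p-1}`,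
  `1 ≤ 1/√(p-1/4)`.
* level `j`: `∫ e^U |L'| ≤ e^{j+1} (∫_{Om, level j} |L'|²)^{1/2} |Om ∩ {U ≥ j}|^{1/2}
   ≤ e^{j+1} √(b j) (C/n)^{1/2} exp (-(j + bE j/200)/(4p))`  (`dist`)
   `= e √(C/n) · exp (j (1 - 1/(4p))) √(b j) exp (-bE j/(800p))`.
* `sum_real`; `exp (J (1 - 1/(4p))) ≤ C n^{2p - 1/2}` (`J ≤ 2p log n + C + 1`,
  `2p (1 - 1/(4p)) = 2p - 1/2`), `n^{-1/2} n^{2p-1/2} = n^{2p-1}`.
-/

open MeasureTheory Metric Set MPV

namespace KQU

/-- Cauchy-Schwarz on a set -/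
private theorem cs_set (A : Set ℂ) (f : ℂ → ℝ) (hf : Measurable f) (hf0 : ∀ z, 0 ≤ f z) {M V : ℝ}
    (hM0 : 0 ≤ M) (hV0 : 0 ≤ V)
    (hM : ∫⁻ z in A, ENNReal.ofReal (f z ^ 2) ≤ ENNReal.ofReal M)
    (hV : volume A ≤ ENNReal.ofReal V) :
    ∫⁻ z in A, ENNReal.ofReal (f z) ≤ ENNReal.ofReal (Real.sqrt M * Real.sqrt V) := by
  have h := ENNReal.lintegral_mul_le_Lp_mul_Lq (volume.restrict A)
    (p := 2) (q := 2) (Real.HolderConjugate.two_two)
    (f := fun z => ENNReal.ofReal (f z)) (g := fun _ => 1)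
    hf.ennreal_ofReal.aemeasurable aemeasurable_const
  simp only [Pi.mul_apply, mul_one, ENNReal.one_rpow] at h
  rw [setLIntegral_one] at h
  refine h.trans ?_
  have e1 : ∀ z, (ENNReal.ofReal (f z)) ^ (2 : ℝ) = ENNReal.ofReal (f z ^ 2) := by
    intro z
    rw [ENNReal.ofReal_rpow_of_nonneg (hf0 z) (by norm_num), Real.rpow_two]
  rw [lintegral_congr fun z => e1 z, ENNReal.ofReal_mul (Real.sqrt_nonneg _)]
  refine mul_le_mul' ?_ ?_
  · refine (ENNReal.rpow_le_rpow hM (by norm_num)).trans (le_of_eq ?_)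
    rw [ENNReal.ofReal_rpow_of_nonneg hM0 (by norm_num), ← Real.sqrt_eq_rpow]
  · refine (ENNReal.rpow_le_rpow hV (by norm_num)).trans (le_of_eq ?_)
    rw [ENNReal.ofReal_rpow_of_nonneg hV0 (by norm_num), ← Real.sqrt_eq_rpow]

private theorem Om_ball {n : ℕ} (hn : 8 ≤ n) {z : ℂ} (hz : z ∈ Om n) :
    z ∈ ball (0 : ℂ) 1 ∧ 1 - 2 / (n : ℝ) ≤ ‖z‖ := by
  have hn0 : (0 : ℝ) < n := by
    have : (8 : ℝ) ≤ n := by exact_mod_cast hn
    linarith
  obtain ⟨h1, h2⟩ := hz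
  refine ⟨?_, h1.le⟩
  rw [mem_ball_zero_iff]
  have : 0 < 1 / (n : ℝ) := by positivity
  linarith

/-- the real computation of `level_int` -/
private theorem lev_real {C n j p e B : ℝ} (hC : 0 < C) (hn : 0 < n) (hp : 0 < p) :
    Real.exp (j + 1) * (Real.sqrt e *
      Real.sqrt (C / n * Real.exp (-((j + B / 200) / (2 * p))))) =
    Real.exp 1 * Real.sqrt C / Real.sqrt n * (Real.exp (j * (1 - 1 / (4 * p))) *
        Real.sqrt e * Real.exp (-B / (800 * p))) := by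
  have e1 : Real.sqrt (Real.exp (-((j + B / 200) / (2 * p))))
      = Real.exp (-(j / (4 * p))) * Real.exp (-B / (800 * p)) := by
    rw [← Real.exp_add, Real.sqrt_eq_iff_mul_self_eq (Real.exp_pos _).le (Real.exp_pos _).le,
      ← Real.exp_add]
    congr 1
    field_simp
    ring
  have e2 : Real.exp (j + 1) * Real.exp (-(j / (4 * p)))
      = Real.exp 1 * Real.exp (j * (1 - 1 / (4 * p))) := by
    rw [← Real.exp_add, ← Real.exp_add]
    congr 1
    field_simp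
    ring
  rw [Real.sqrt_mul (by positivity), e1, Real.sqrt_div hC.le]
  calc Real.exp (j + 1) * (Real.sqrt e * (Real.sqrt C / Real.sqrt n *
        (Real.exp (-(j / (4 * p))) * Real.exp (-B / (800 * p)))))
      = (Real.exp (j + 1) * Real.exp (-(j / (4 * p)))) * (Real.sqrt C / Real.sqrt n *
        (Real.sqrt e * Real.exp (-B / (800 * p)))) := by ring
    _ = _ := by rw [e2]; ring

theorem level_int : ∃ C : ℝ, 0 < C ∧ ∀ p : ℝ, 1 / 4 < p → p ≤ 1 → ∀ L : ℂ → ℂ, Cls p L →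
    (L 0).re = 0 → ∀ n : ℕ, 8 ≤ n → ∀ j : ℕ,
      ∫⁻ z in {z | z ∈ Om n ∧ (j : ℝ) ≤ (L z).re ∧ (L z).re < j + 1},
        ENNReal.ofReal (Real.exp (L z).re * ‖deriv L z‖) ≤
      ENNReal.ofReal (C / Real.sqrt n * (Real.exp (j * (1 - 1 / (4 * p))) *
        Real.sqrt ((en L (1 - 2 / (n : ℝ)) j (j + 1)).toReal) *
        Real.exp (-bE L (1 - 2 / (n : ℝ)) j / (800 * p)))) := by
  obtain ⟨C, hC, hdist⟩ := dist
  refine ⟨Real.exp 1 * Real.sqrt C, by positivity, ?_⟩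
  intro p hp hp1 L h h0 n hn j
  have hp0 : 0 < p := by linarith
  have hn0 : (0 : ℝ) < n := by
    have : (8 : ℝ) ≤ n := by exact_mod_cast hn
    linarith
  set r : ℝ := 1 - 2 / (n : ℝ) with hr
  set A : Set ℂ := {z | z ∈ Om n ∧ (j : ℝ) ≤ (L z).re ∧ (L z).re < j + 1} with hA
  have hj0 : (0 : ℝ) ≤ j := Nat.cast_nonneg j
  have hfin : en L r j (j + 1) ≠ ⊤ :=
    ne_top_of_le_ne_top ENNReal.ofReal_ne_top (en_le hp0 hp1 h (by linarith))
  have hen : ∫⁻ z in A, ENNReal.ofReal (‖deriv L z‖ ^ 2)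
      ≤ ENNReal.ofReal ((en L r j (j + 1)).toReal) := by
    rw [ENNReal.ofReal_toReal hfin]
    unfold en
    refine lintegral_mono_set ?_
    intro z hz
    obtain ⟨h1, h2, h3⟩ := hz
    exact ⟨(Om_ball hn h1).1, (Om_ball hn h1).2, h2, h3⟩
  have hvol : volume A ≤ ENNReal.ofReal (C / n *
        Real.exp (-(((j : ℝ) + bE L r j / 200) / (2 * p)))) := by
    refine (measure_mono ?_).trans (hdist p hp.le hp1 L h h0 n hn j hj0)
    intro z hz
    exact ⟨hz.1, hz.2.1⟩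
  have hcs := cs_set A (fun z => ‖deriv L z‖) (measurable_deriv L).norm
    (fun z => norm_nonneg _) ENNReal.toReal_nonneg (by positivity) hen hvol
  have h1 : ∫⁻ z in A, ENNReal.ofReal (Real.exp (L z).re * ‖deriv L z‖)
      ≤ ∫⁻ z in A, ENNReal.ofReal (Real.exp ((j : ℝ) + 1)) * ENNReal.ofReal ‖deriv L z‖ := by
    have hmA : ∀ z ∈ A, ENNReal.ofReal (Real.exp (L z).re * ‖deriv L z‖)
        ≤ ENNReal.ofReal (Real.exp ((j : ℝ) + 1)) * ENNReal.ofReal ‖deriv L z‖ := by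
      intro z hz
      rw [← ENNReal.ofReal_mul (Real.exp_pos _).le]
      exact ENNReal.ofReal_le_ofReal (mul_le_mul_of_nonneg_right
        (Real.exp_le_exp.mpr hz.2.2.le) (norm_nonneg _))
    have hm : Measurable fun z => ENNReal.ofReal (Real.exp ((j : ℝ) + 1))
        * ENNReal.ofReal ‖deriv L z‖ :=
      ((measurable_deriv L).norm.ennreal_ofReal).const_mul _
    exact setLIntegral_mono hm hmA
  refine h1.trans ?_
  rw [lintegral_const_mul _ ((measurable_deriv L).norm.ennreal_ofReal)]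
  refine (mul_le_mul' le_rfl hcs).trans ?_
  rw [← ENNReal.ofReal_mul (Real.exp_pos _).le]
  refine ENNReal.ofReal_le_ofReal (le_of_eq ?_)
  exact lev_real hC hn0 hp0

theorem zero_int : ∃ C : ℝ, 0 < C ∧ ∀ p : ℝ, 0 < p → p ≤ 1 → ∀ L : ℂ → ℂ, Cls p L →
    ∀ n : ℕ, 8 ≤ n →
      ∫⁻ z in {z | z ∈ Om n ∧ (L z).re < 0},
        ENNReal.ofReal (Real.exp (L z).re * ‖deriv L z‖) ≤ ENNReal.ofReal (C / Real.sqrt n) := by
  refine ⟨Real.sqrt Real.pi * Real.sqrt (2 * Real.pi),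
    mul_pos (Real.sqrt_pos.mpr Real.pi_pos) (Real.sqrt_pos.mpr (by positivity)), ?_⟩
  intro p hp hp1 L h n hn
  classical
  have hn0 : (0 : ℝ) < n := by
    have : (8 : ℝ) ≤ n := by exact_mod_cast hn
    linarith
  set A : Set ℂ := {z | z ∈ Om n ∧ (L z).re < 0} with hA
  set D : Set ℂ := ball (0 : ℂ) 1 with hD
  have hDm : MeasurableSet D := isOpen_ball.measurableSet
  have hsub : A ⊆ D := fun z hz => (Om_ball hn hz.1).1
  -- a measurable version of `Re L`
  have hLc : ContinuousOn (fun z => (L z).re) D :=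
    Complex.continuous_re.comp_continuousOn h.diff.continuousOn
  set R : ℂ → ℝ := D.piecewise (fun z => (L z).re) (fun _ => 0) with hRd
  have hmL : Measurable R := hLc.measurable_piecewise continuousOn_const hDm
  have hRD : ∀ z ∈ D, R z = (L z).re := fun z hz => by
    rw [hRd]; exact Set.piecewise_eq_of_mem _ _ _ hz
  set g : ℂ → ℝ := fun z => Real.exp (R z) * ‖deriv L z‖ with hg
  have hgm : Measurable g := (Real.measurable_exp.comp hmL).mul (measurable_deriv L).norm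
  have hg0 : ∀ z, 0 ≤ g z := fun z => mul_nonneg (Real.exp_pos _).le (norm_nonneg _)
  have hgD : ∀ z ∈ D, g z = Real.exp (L z).re * ‖deriv L z‖ := by
    intro z hz
    simp only [hg]
    rw [hRD z hz]
  have hmA : MeasurableSet A := by
    have hOm : MeasurableSet (Om n) :=
      (measurableSet_lt measurable_const measurable_norm).inter
        (measurableSet_lt measurable_norm measurable_const)
    have h1 : A = Om n ∩ {z | R z < 0} := by
      ext z
      constructor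
      · rintro ⟨a, b⟩
        refine ⟨a, ?_⟩
        change R z < 0
        rw [hRD z (Om_ball hn a).1]
        exact b
      · rintro ⟨a, b⟩
        change R z < 0 at b
        rw [hRD z (Om_ball hn a).1] at b
        exact ⟨a, b⟩
    rw [h1]
    exact hOm.inter (measurableSet_lt hmL measurable_const)
  have hM : ∫⁻ z in A, ENNReal.ofReal (g z ^ 2) ≤ ENNReal.ofReal Real.pi := by
    have h1 : ∫⁻ z in A, ENNReal.ofReal (g z ^ 2)
        = ∫⁻ z in A, ENNReal.ofReal (Real.exp (2 * (L z).re) * ‖deriv L z‖ ^ 2) := by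
      refine setLIntegral_congr_fun hmA ?_
      intro z hz
      simp only
      rw [hgD z (hsub hz)]
      congr 1
      rw [mul_pow, ← Real.exp_nat_mul]
      norm_num
    rw [h1]
    have h2 := h.area 0
    refine (lintegral_mono_set ?_).trans (h2.trans ?_)
    · intro z hz
      exact ⟨hsub hz, hz.2⟩
    · refine ENNReal.ofReal_le_ofReal ?_
      rw [mul_zero, Real.exp_zero, mul_one]
      exact mul_le_of_le_one_right Real.pi_pos.le hp1
  have hvol : volume A ≤ ENNReal.ofReal (2 * Real.pi / n) :=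
    (measure_mono fun z hz => hz.1).trans (vol_Om hn)
  have hcs := cs_set A g hgm hg0 Real.pi_pos.le (by positivity) hM hvol
  have h3 : ∫⁻ z in A, ENNReal.ofReal (Real.exp (L z).re * ‖deriv L z‖)
      = ∫⁻ z in A, ENNReal.ofReal (g z) := by
    refine setLIntegral_congr_fun hmA ?_
    intro z hz
    simp only
    rw [hgD z (hsub hz)]
  rw [h3]
  refine hcs.trans (ENNReal.ofReal_le_ofReal (le_of_eq ?_))
  rw [Real.sqrt_div (by positivity)]
  ring

end KQU
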