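import Pool.Agent.KQU.Su

set_option autoImplicit false

/-!
# KQU SV : `∫_Om |f'|`, assembly

`Om n = (Om n ∩ {U < 0}) ∪ ⋃_{j<J} (Om n ∩ {j ≤ U < j+1})` with
`J = ⌊2p log n + C⌋₊ + 1` (`top_level`), `zero_int`, `level_int`, `sum_real` with
`b j = (en L r j (j+1)).toReal ≤ 5π ≤ 16` (`en_le`), `∑_{i<j} b i = bE L r j` (`bE_step`,
induction), and `exp (J (1 - 1/(4p))) ≤ C n^{2p - 1/2}`, `n^{-1/2} n^{2p-1/2} = n^{2p-1}`,
`n^{-1/2} ≤ n^{2p-1}`, `1 ≤ 1/√(p-1/4)`.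
-/

open MeasureTheory Metric Set MPV

namespace KQU

theorem sum_bE {p : ℝ} (hp : 0 < p) (hp1 : p ≤ 1) {L : ℂ → ℂ} (h : Cls p L) (r : ℝ) (j : ℕ) :
    ∑ i ∈ Finset.range j, (en L r i (i + 1)).toReal = bE L r j := by
  induction j with
  | zero =>
    rw [Finset.sum_range_zero, Nat.cast_zero, bE_zero]
  | succ j ih =>
    rw [Finset.sum_range_succ, ih, Nat.cast_succ]
    exact (bE_step hp hp1 h (Nat.cast_nonneg j) (by linarith)).symm

theorem b_le {p : ℝ} (hp : 0 < p) (hp1 : p ≤ 1) {L : ℂ → ℂ} (h : Cls p L) (r : ℝ) (j : ℕ) :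
    (en L r j (j + 1)).toReal ≤ 16 := by
  have h1 := en_le hp hp1 h (r := r) (a := (j : ℝ)) (b := (j : ℝ) + 1) (by linarith)
  have h2 : Real.pi * (2 * ((j : ℝ) + 1 - j) + 3) ≤ 16 := by
    have := Real.pi_lt_d2
    nlinarith
  have h3 := ENNReal.toReal_mono ENNReal.ofReal_ne_top h1
  rw [ENNReal.toReal_ofReal (by
    have := Real.pi_pos
    have h4 : (0 : ℝ) ≤ 2 * ((j : ℝ) + 1 - j) + 3 := by linarith
    positivity)] at h3
  exact h3.trans h2

theorem omega_int : ∃ C : ℝ, 0 < C ∧ ∀ p : ℝ, 1 / 4 < p → p ≤ 1 → ∀ L : ℂ → ℂ, Cls p L →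
    (L 0).re = 0 → ∀ n : ℕ, 8 ≤ n →
      ∫⁻ z in Om n, ENNReal.ofReal (Real.exp (L z).re * ‖deriv L z‖) ≤
        ENNReal.ofReal (C / Real.sqrt (p - 1 / 4) * (n : ℝ) ^ (2 * p - 1)) := by
  obtain ⟨C1, hC1, H1⟩ := level_int
  obtain ⟨C2, hC2, H2⟩ := zero_int
  obtain ⟨C3, hC3, H3⟩ := top_level
  obtain ⟨C4, hC4, H4⟩ := sum_real
  refine ⟨C2 + C1 * C4 * Real.exp (C3 + 1), by positivity, fun p hp hp1 L hL hL0 n hn => ?_⟩
  have hp0 : 0 < p := by linarith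
  have hn0 : (0 : ℝ) < n := by
    have : 0 < n := by omega
    exact_mod_cast this
  have hn1 : (1 : ℝ) ≤ n := by
    have : 1 ≤ n := by omega
    exact_mod_cast this
  set r : ℝ := 1 - 2 / (n : ℝ) with hr
  set b : ℕ → ℝ := fun j => (en L r j (j + 1)).toReal with hb
  set c : ℝ := 1 - 1 / (4 * p) with hc
  set G : ℂ → ENNReal := fun z => ENNReal.ofReal (Real.exp (L z).re * ‖deriv L z‖) with hG
  set J : ℕ := ⌊2 * p * Real.log n + C3⌋₊ + 1 with hJ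
  have hlog : 0 ≤ Real.log n := Real.log_nonneg hn1
  have hcov : Om n ⊆ {z | z ∈ Om n ∧ (L z).re < 0} ∪
      ⋃ j : Fin J, {z | z ∈ Om n ∧ ((j : ℕ) : ℝ) ≤ (L z).re ∧ (L z).re < (j : ℕ) + 1} := by
    intro z hz
    rcases lt_or_ge (L z).re 0 with h0 | h0
    · exact Or.inl ⟨hz, h0⟩
    · refine Or.inr (mem_iUnion.2 ⟨⟨⌊(L z).re⌋₊, ?_⟩, hz, Nat.floor_le h0, Nat.lt_floor_add_one _⟩)
      have h1 := Nat.floor_le_floor (H3 p hp.le hp1 L hL hL0 n hn z hz)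
      omega
  have hsum : ∑ j ∈ Finset.range J, Real.exp (j * c) * Real.sqrt (b j) *
      Real.exp (-bE L r j / (800 * p)) ≤ C4 / Real.sqrt (p - 1 / 4) * Real.exp (J * c) := by
    have h1 := H4 p hp hp1 b (fun j => ENNReal.toReal_nonneg)
      (fun j => b_le hp0 hp1 hL r j) J
    refine le_trans (le_of_eq (Finset.sum_congr rfl fun j _ => ?_)) h1
    rw [hb, sum_bE hp0 hp1 hL r j]
  have hcpos : 0 ≤ c := by
    rw [hc, sub_nonneg, div_le_one (by positivity)]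
    linarith
  have hc1 : c ≤ 1 := by
    have : 0 ≤ 1 / (4 * p) := by positivity
    rw [hc]
    linarith
  have hJ1 : (J : ℝ) ≤ 2 * p * Real.log n + C3 + 1 := by
    have h1 := Nat.floor_le (show 0 ≤ 2 * p * Real.log n + C3 by positivity)
    rw [hJ]
    push_cast
    linarith
  have hexp : Real.exp (J * c) ≤ Real.exp (C3 + 1) * (n : ℝ) ^ (2 * p - 1 / 2) := by
    rw [Real.rpow_def_of_pos hn0, ← Real.exp_add]
    refine Real.exp_le_exp.2 ?_
    have h1 : (J : ℝ) * c ≤ (2 * p * Real.log n + C3 + 1) * c :=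
      mul_le_mul_of_nonneg_right hJ1 hcpos
    have h2 : 2 * p * Real.log n * c = Real.log n * (2 * p - 1 / 2) := by
      rw [hc]
      field_simp
      ring
    have h3 : (C3 + 1) * c ≤ C3 + 1 := by nlinarith
    nlinarith
  have hs0 : 0 < Real.sqrt (p - 1 / 4) := Real.sqrt_pos.2 (by linarith)
  have hs1 : Real.sqrt (p - 1 / 4) ≤ 1 := Real.sqrt_le_one.2 (by linarith)
  have hsn : Real.sqrt n = (n : ℝ) ^ (1 / 2 : ℝ) := Real.sqrt_eq_rpow _
  have hsn0 : 0 < Real.sqrt n := Real.sqrt_pos.2 hn0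
  have hq : (n : ℝ) ^ (2 * p - 1 / 2) / Real.sqrt n = (n : ℝ) ^ (2 * p - 1) := by
    rw [hsn, ← Real.rpow_sub hn0]
    congr 1
    ring
  have hq2 : 1 / Real.sqrt n ≤ (n : ℝ) ^ (2 * p - 1) := by
    rw [hsn, one_div, ← Real.rpow_neg hn0.le]
    exact Real.rpow_le_rpow_of_exponent_le hn1 (by linarith)
  have hP : 0 < (n : ℝ) ^ (2 * p - 1) := Real.rpow_pos_of_pos hn0 _
  have hreal : C2 / Real.sqrt n + ∑ j ∈ Finset.range J, C1 / Real.sqrt n *
      (Real.exp (j * c) * Real.sqrt (b j) * Real.exp (-bE L r j / (800 * p))) ≤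
      (C2 + C1 * C4 * Real.exp (C3 + 1)) / Real.sqrt (p - 1 / 4) * (n : ℝ) ^ (2 * p - 1) := by
    rw [← Finset.mul_sum]
    have h1 : C1 / Real.sqrt n * ∑ j ∈ Finset.range J, Real.exp (j * c) * Real.sqrt (b j) *
        Real.exp (-bE L r j / (800 * p)) ≤
        C1 / Real.sqrt n * (C4 / Real.sqrt (p - 1 / 4) *
          (Real.exp (C3 + 1) * (n : ℝ) ^ (2 * p - 1 / 2))) := by
      refine mul_le_mul_of_nonneg_left (hsum.trans ?_) (by positivity)
      exact mul_le_mul_of_nonneg_left hexp (by positivity)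
    have h2 : C1 / Real.sqrt n * (C4 / Real.sqrt (p - 1 / 4) *
          (Real.exp (C3 + 1) * (n : ℝ) ^ (2 * p - 1 / 2))) =
        C1 * C4 * Real.exp (C3 + 1) / Real.sqrt (p - 1 / 4) *
          ((n : ℝ) ^ (2 * p - 1 / 2) / Real.sqrt n) := by
      field_simp
    have h3 : C2 / Real.sqrt n ≤ C2 / Real.sqrt (p - 1 / 4) * (n : ℝ) ^ (2 * p - 1) := by
      calc C2 / Real.sqrt n = C2 * (1 / Real.sqrt n) := by ring
        _ ≤ C2 * (n : ℝ) ^ (2 * p - 1) := mul_le_mul_of_nonneg_left hq2 hC2.le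
        _ = C2 / 1 * (n : ℝ) ^ (2 * p - 1) := by ring
        _ ≤ C2 / Real.sqrt (p - 1 / 4) * (n : ℝ) ^ (2 * p - 1) := by
          gcongr
    rw [h2, hq] at h1
    have h4 : (C2 + C1 * C4 * Real.exp (C3 + 1)) / Real.sqrt (p - 1 / 4) * (n : ℝ) ^ (2 * p - 1) =
        C2 / Real.sqrt (p - 1 / 4) * (n : ℝ) ^ (2 * p - 1) +
        C1 * C4 * Real.exp (C3 + 1) / Real.sqrt (p - 1 / 4) * (n : ℝ) ^ (2 * p - 1) := by ring
    rw [h4]
    exact add_le_add h3 h1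
  calc ∫⁻ z in Om n, G z ≤ ∫⁻ z in {z | z ∈ Om n ∧ (L z).re < 0} ∪
      ⋃ j : Fin J, {z | z ∈ Om n ∧ ((j : ℕ) : ℝ) ≤ (L z).re ∧ (L z).re < (j : ℕ) + 1}, G z :=
        lintegral_mono_set hcov
    _ ≤ (∫⁻ z in {z | z ∈ Om n ∧ (L z).re < 0}, G z) +
        ∫⁻ z in ⋃ j : Fin J, {z | z ∈ Om n ∧ ((j : ℕ) : ℝ) ≤ (L z).re ∧ (L z).re < (j : ℕ) + 1},
          G z := lintegral_union_le _ _ _
    _ ≤ ENNReal.ofReal (C2 / Real.sqrt n) + ∑ j ∈ Finset.range J,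
        ENNReal.ofReal (C1 / Real.sqrt n *
          (Real.exp (j * c) * Real.sqrt (b j) * Real.exp (-bE L r j / (800 * p)))) := by
        refine add_le_add (H2 p hp0 hp1 L hL n hn) ?_
        refine (lintegral_iUnion_le _ _).trans ?_
        rw [tsum_fintype, Finset.sum_range]
        exact Finset.sum_le_sum fun j _ => H1 p hp hp1 L hL hL0 n hn (j : ℕ)
    _ = ENNReal.ofReal (C2 / Real.sqrt n + ∑ j ∈ Finset.range J, C1 / Real.sqrt n *
          (Real.exp (j * c) * Real.sqrt (b j) * Real.exp (-bE L r j / (800 * p)))) := by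
        rw [ENNReal.ofReal_add (by positivity) (Finset.sum_nonneg fun j _ => by positivity),
          ENNReal.ofReal_sum_of_nonneg fun j _ => by positivity]
    _ ≤ _ := ENNReal.ofReal_le_ofReal hreal

end KQU
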